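import Mathlib

namespace Pool.Agent.P.MP_4cdbfb_co.Z3

open Finsupp

/-- Ordered chains with coefficients mod three. -/
abbrev Ch (α : Type) := List α →₀ ZMod 3

variable {α : Type}

/-- The cone with apex `x`. -/
noncomputable def cn (x : α) : Ch α →ₗ[ZMod 3] Ch α := lmapDomain _ _ (x :: ·)

/-- The map induced on chains. -/
noncomputable def mp (f : α → α) : Ch α →ₗ[ZMod 3] Ch α := lmapDomain _ _ (List.map f)

@[simp] theorem cn_single (x : α) (l : List α) (a : ZMod 3) :
    cn x (single l a) = single (x :: l) a := by simp [cn]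

@[simp] theorem mp_single (f : α → α) (l : List α) (a : ZMod 3) :
    mp f (single l a) = single (l.map f) a := by simp [mp]

theorem ch_ext {M : Type} [AddCommGroup M] [Module (ZMod 3) M] (φ ψ : Ch α →ₗ[ZMod 3] M)
    (h : ∀ l, φ (single l 1) = ψ (single l 1)) (c : Ch α) : φ c = ψ c := by
  have : φ = ψ := lhom_ext' fun l => LinearMap.ext_ring (h l)
  rw [this]

theorem mp_cn (f : α → α) (x : α) (c : Ch α) : mp f (cn x c) = cn (f x) (mp f c) :=
  ch_ext (mp f ∘ₗ cn x) (cn (f x) ∘ₗ mp f) (by simp) c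

/-- The boundary of a list. -/
noncomputable def bd0 : List α → Ch α
  | [] => 0
  | x :: l => single l 1 - cn x (bd0 l)

/-- The boundary operator. -/
noncomputable def bd : Ch α →ₗ[ZMod 3] Ch α := linearCombination _ bd0

@[simp] theorem bd_single (l : List α) : bd (single l 1) = bd0 l := by simp [bd]

theorem bd_cn (x : α) (c : Ch α) : bd (cn x c) = c - cn x (bd c) :=
  ch_ext (bd ∘ₗ cn x) (LinearMap.id - cn x ∘ₗ bd) (by simp [bd0]) c

theorem bd_mp (f : α → α) (c : Ch α) : bd (mp f c) = mp f (bd c) := by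
  refine ch_ext (bd ∘ₗ mp f) (mp f ∘ₗ bd) (fun l => ?_) c
  induction l with
  | nil => simp [bd0]
  | cons x l ih =>
    simp only [LinearMap.comp_apply, mp_single, bd_single, List.map_cons, bd0, map_sub,
      mp_cn] at ih ⊢
    rw [ih]

/-- The prism over a list. -/
noncomputable def pr0 (f f' : α → α) : List α → Ch α
  | [] => 0
  | x :: l => single (f x :: f' x :: l.map f') 1 - cn (f x) (pr0 f f' l)

/-- The prism operator. -/
noncomputable def pr (f f' : α → α) : Ch α →ₗ[ZMod 3] Ch α := linearCombination _ (pr0 f f')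

@[simp] theorem pr_single (f f' : α → α) (l : List α) : pr f f' (single l 1) = pr0 f f' l := by
  simp [pr]

theorem pr_cn (f f' : α → α) (x : α) (c : Ch α) :
    pr f f' (cn x c) = cn (f x) (cn (f' x) (mp f' c)) - cn (f x) (pr f f' c) :=
  ch_ext (pr f f' ∘ₗ cn x) (cn (f x) ∘ₗ cn (f' x) ∘ₗ mp f' - cn (f x) ∘ₗ pr f f')
    (by simp [pr0]) c

theorem bd_pr (f f' : α → α) (c : Ch α) :
    bd (pr f f' c) + pr f f' (bd c) = mp f' c - mp f c := by
  refine ch_ext (bd ∘ₗ pr f f' + pr f f' ∘ₗ bd) (mp f' - mp f) (fun l => ?_) c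
  induction l with
  | nil => simp [bd0, pr0]
  | cons x l ih =>
    have e := bd_mp f' (single l 1)
    simp only [LinearMap.add_apply, LinearMap.comp_apply, LinearMap.sub_apply, mp_single,
      bd_single, pr_single, List.map_cons, bd0, pr0, map_sub, bd_cn, pr_cn, cn_single] at ih e ⊢
    rw [eq_sub_of_add_eq ih, ← e]
    simp only [map_sub, cn_single]
    abel

/-- Chains supported on increasing lists of length `k` with entries satisfying `Q`. -/
noncomputable def CC (r : α → α → Prop) (Q : α → Prop) (k : ℕ) : Submodule (ZMod 3) (Ch α) :=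
  supported _ _ {l | l.Pairwise r ∧ (∀ y ∈ l, Q y) ∧ l.length = k}

theorem single_mem {r : α → α → Prop} {Q : α → Prop} {k : ℕ} {l : List α} (h1 : l.Pairwise r)
    (h2 : ∀ y ∈ l, Q y) (h3 : l.length = k) : single l 1 ∈ CC r Q k :=
  single_mem_supported _ _ ⟨h1, h2, h3⟩

theorem CC_map {M : Type} [AddCommGroup M] [Module (ZMod 3) M] {r : α → α → Prop}
    {Q : α → Prop} {k : ℕ} (φ : Ch α →ₗ[ZMod 3] M) (N : Submodule (ZMod 3) M)
    (h : ∀ l : List α, l.Pairwise r → (∀ y ∈ l, Q y) → l.length = k → φ (single l 1) ∈ N)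
    {c : Ch α} (hc : c ∈ CC r Q k) : φ c ∈ N := by
  have : CC r Q k ≤ N.comap φ := by
    unfold CC
    rw [supported_eq_span_single, Submodule.span_le]
    rintro _ ⟨l, hl, rfl⟩
    exact h l hl.1 hl.2.1 hl.2.2
  exact this hc

theorem cn_mem {r : α → α → Prop} {Q : α → Prop} {k : ℕ} {x : α} (hx : Q x) {c : Ch α}
    (hc : c ∈ CC r (fun y => Q y ∧ r x y) k) : cn x c ∈ CC r Q (k + 1) := by
  refine CC_map _ _ (fun l h1 h2 h3 => ?_) hc
  rw [cn_single]
  refine single_mem (List.pairwise_cons.mpr ⟨fun y hy => (h2 y hy).2, h1⟩) ?_ (by simp [h3])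
  intro y hy
  rcases List.mem_cons.mp hy with rfl | hy
  · exact hx
  · exact (h2 y hy).1

theorem mp_mem {r : α → α → Prop} {Q Q' : α → Prop} {k : ℕ} {f : α → α}
    (hf : ∀ x y, r x y → r (f x) (f y)) (hQ : ∀ x, Q x → Q' (f x)) {c : Ch α}
    (hc : c ∈ CC r Q k) : mp f c ∈ CC r Q' k := by
  refine CC_map _ _ (fun l h1 h2 h3 => ?_) hc
  rw [mp_single]
  refine single_mem (h1.map f fun x y => hf x y) ?_ (by simp [h3])
  intro y hy
  obtain ⟨x, hx, rfl⟩ := List.mem_map.mp hy
  exact hQ x (h2 x hx)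

theorem pr0_mem {r : α → α → Prop} (ht : ∀ x y z, r x y → r y z → r x z) {f f' : α → α}
    (hf : ∀ x y, r x y → r (f x) (f y)) (hf' : ∀ x y, r x y → r (f' x) (f' y))
    (hff : ∀ x, r (f x) (f' x)) (l : List α) (h1 : l.Pairwise r) :
    ∀ Q : α → Prop, (∀ y ∈ l, Q (f y) ∧ Q (f' y)) → pr0 f f' l ∈ CC r Q (l.length + 1) := by
  induction l with
  | nil => exact fun _ _ => Submodule.zero_mem _
  | cons x l ih =>
    intro Q hQ
    obtain ⟨a1, a2⟩ := List.pairwise_cons.mp h1
    have hx := hQ x List.mem_cons_self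
    refine Submodule.sub_mem _ ?_ (cn_mem hx.1 (ih a2 _ fun y hy => ?_))
    · rw [← cn_single, ← List.map_cons, ← mp_single]
      refine cn_mem hx.1 (mp_mem (Q := fun y => y ∈ x :: l) hf' (fun y hy => ⟨(hQ y hy).2, ?_⟩)
        (single_mem h1 (fun _ h => h) rfl))
      rcases List.mem_cons.mp hy with rfl | hy
      · exact hff _
      · exact ht _ _ _ (hff _) (hf' _ _ (a1 y hy))
    · have := hQ y (List.mem_cons_of_mem _ hy)
      exact ⟨⟨this.1, hf _ _ (a1 y hy)⟩, this.2, ht _ _ _ (hff _) (hf' _ _ (a1 y hy))⟩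

theorem pr_mem {r : α → α → Prop} (ht : ∀ x y z, r x y → r y z → r x z) {f f' : α → α}
    (hf : ∀ x y, r x y → r (f x) (f y)) (hf' : ∀ x y, r x y → r (f' x) (f' y))
    (hff : ∀ x, r (f x) (f' x)) {Q Q' : α → Prop} (hQ : ∀ x, Q x → Q' (f x) ∧ Q' (f' x))
    {k : ℕ} {c : Ch α} (hc : c ∈ CC r Q k) : pr f f' c ∈ CC r Q' (k + 1) := by
  refine CC_map _ _ (fun l h1 h2 h3 => ?_) hc
  rw [pr_single, ← h3]
  exact pr0_mem ht hf hf' hff l h1 _ fun y hy => hQ y (h2 y hy)

theorem bound {r : α → α → Prop} (ht : ∀ x y z, r x y → r y z → r x z) (F : ℕ → α → α) (N : ℕ)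
    (e : α) {Q Q' : α → Prop} (hm : ∀ s x y, r x y → r (F s x) (F s y))
    (hs : ∀ s, (∀ x, r (F s x) (F (s + 1) x)) ∨ ∀ x, r (F (s + 1) x) (F s x))
    (h0 : ∀ x, Q x → F 0 x = x) (hQ : ∀ s x, Q x → Q' (F s x)) (hN : ∀ x, r e (F N x))
    (he : Q' e) {k : ℕ} {z : Ch α} (hz : z ∈ CC r Q k) (hb : bd z = 0) :
    ∃ w ∈ CC r Q' (k + 1), bd w = z := by
  have key : ∀ s, ∃ w ∈ CC r Q' (k + 1), bd w = mp (F s) z - z := by
    intro s
    induction s with
    | zero =>
      refine ⟨0, Submodule.zero_mem _, ?_⟩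
      have := CC_map (mp (F 0) - LinearMap.id) ⊥ (fun l _ h2 _ => by
        have : l.map (F 0) = l := by
          rw [List.map_congr_left fun y hy => h0 y (h2 y hy), List.map_id']
        simp [this]) hz
      rw [map_zero]
      exact this.symm
    | succ s ih =>
      obtain ⟨w, w1, w2⟩ := ih
      rcases hs s with h | h
      · refine ⟨w + pr (F s) (F (s + 1)) z, Submodule.add_mem _ w1
          (pr_mem ht (hm s) (hm _) h (fun x hx => ⟨hQ _ x hx, hQ _ x hx⟩) hz), ?_⟩
        have := bd_pr (F s) (F (s + 1)) z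
        rw [hb, map_zero, add_zero] at this
        rw [map_add, w2, this]
        abel
      · refine ⟨w - pr (F (s + 1)) (F s) z, Submodule.sub_mem _ w1
          (pr_mem ht (hm _) (hm s) h (fun x hx => ⟨hQ _ x hx, hQ _ x hx⟩) hz), ?_⟩
        have := bd_pr (F (s + 1)) (F s) z
        rw [hb, map_zero, add_zero] at this
        rw [map_sub, w2, this]
        abel
  obtain ⟨w, w1, w2⟩ := key N
  refine ⟨cn e (mp (F N) z) - w, Submodule.sub_mem _
    (cn_mem he (mp_mem (hm N) (fun x hx => ⟨hQ _ x hx, hN x⟩) hz)) w1, ?_⟩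
  rw [map_sub, bd_cn, bd_mp, hb, w2]
  simp

/-- Multiplication by `t` on the group ring. -/
def Tm : Matrix (Fin 3) (Fin 3) (ZMod 3) := !![0, 0, 0; 1, 0, 0; 0, 1, 0]

/-- The differentials of the minimal resolution. -/
def Dm (p : Bool) : Matrix (Fin 3) (Fin 3) (ZMod 3) := if p then Tm * Tm else Tm

/-- The contracting homotopy based at the identity. -/
def sm (p : Bool) : Matrix (Fin 3) (Fin 3) (ZMod 3) :=
  if p then !![0, 0, 1; 0, 0, 0; 0, 0, 0] else !![0, 1, 0; 0, 0, 1; 0, 0, 0]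

/-- The contracting homotopy based at `h`. -/
def Sm (p : Bool) (h : ZMod 3) : Matrix (Fin 3) (Fin 3) (ZMod 3) :=
  (1 + Tm) ^ h.val * sm p * (1 + Tm) ^ (-h).val

theorem Sm1 : ∀ p h, Dm p * Sm p h + Sm (!p) h * Dm (!p) = 1 := by decide +kernel

theorem Sm2 : ∀ p h, Sm p (h + 1) * (1 + Tm) = (1 + Tm) * Sm p h := by decide +kernel

theorem Sm3 : ∀ p h, Sm p h * Sm (!p) h = 0 := by decide +kernel

theorem Dm0 : ∀ p (v : Fin 3 → ZMod 3), (Dm p).mulVec v = 0 → v 0 = 0 := by decide +kernel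

/-- The chain map to the minimal resolution, on lists. -/
def ps (u : α → ZMod 3) : Bool → List α → Fin 3 → ZMod 3
  | p, [] => if p then 0 else ![0, 0, 1]
  | p, x :: l => (Sm p (u x)).mulVec (ps u (!p) l)

/-- The chain map to the minimal resolution. -/
noncomputable def Ps (u : α → ZMod 3) (p : Bool) : Ch α →ₗ[ZMod 3] (Fin 3 → ZMod 3) :=
  linearCombination _ (ps u p)

@[simp] theorem Ps_single (u : α → ZMod 3) (p : Bool) (l : List α) :
    Ps u p (single l 1) = ps u p l := by simp [Ps]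

theorem Ps_cn (u : α → ZMod 3) (p : Bool) (x : α) (c : Ch α) :
    Ps u p (cn x c) = (Sm p (u x)).mulVec (Ps u (!p) c) :=
  ch_ext (Ps u p ∘ₗ cn x) ((Sm p (u x)).mulVecLin ∘ₗ Ps u (!p)) (by simp [ps]) c

theorem Ps_bd (u : α → ZMod 3) (p : Bool) (c : Ch α) :
    (Dm p).mulVec (Ps u p c) = Ps u (!p) (bd c) := by
  refine ch_ext ((Dm p).mulVecLin ∘ₗ Ps u p) (Ps u (!p) ∘ₗ bd) (fun l => ?_) c
  induction l generalizing p with
  | nil =>
    simp only [LinearMap.comp_apply, Ps_single, bd_single, bd0, map_zero, ps,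
      Matrix.mulVecLin_apply]
    revert p
    decide +kernel
  | cons x l ih =>
    have := ih (!p)
    simp only [LinearMap.comp_apply, Ps_single, bd_single, bd0, map_sub, ps, Ps_cn,
      Matrix.mulVecLin_apply] at this ⊢
    rw [← this, Matrix.mulVec_mulVec, Matrix.mulVec_mulVec, eq_sub_iff_add_eq,
      ← Matrix.add_mulVec, Sm1, Matrix.one_mulVec]

theorem ps_map (u : α → ZMod 3) (g : α → α) (l : List α) (h : ∀ x ∈ l, u (g x) = u x + 1)
    (p : Bool) : ps u p (l.map g) = (1 + Tm).mulVec (ps u p l) := by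
  induction l generalizing p with
  | nil =>
    simp only [List.map_nil, ps]
    revert p
    decide +kernel
  | cons x l ih =>
    simp only [List.map_cons, ps]
    rw [ih fun y hy => h y (List.mem_cons_of_mem _ hy), h x List.mem_cons_self,
      Matrix.mulVec_mulVec, Matrix.mulVec_mulVec, Sm2]

theorem ps_ne {r : α → α → Prop} {Q : α → Prop} (u : α → ZMod 3) (M : α → ℕ) (m : ℕ)
    (hM : ∀ x, Q x → M x < m) (hs : ∀ x y, Q x → Q y → r x y → u x ≠ u y → M x < M y)
    (l : List α) : ∀ (x : α) (p : Bool), (x :: l).Pairwise r → (∀ y ∈ x :: l, Q y) →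
      ps u p (x :: l) ≠ 0 → M x + l.length < m := by
  induction l with
  | nil => exact fun x _ _ h _ => hM x (h x List.mem_cons_self)
  | cons y l ih =>
    intro x p h1 h2 h3
    obtain ⟨a1, a2⟩ := List.pairwise_cons.mp h1
    have b1 := ih y (!p) a2 (fun z hz => h2 z (List.mem_cons_of_mem _ hz)) fun e => h3 (by
      rw [ps, e, Matrix.mulVec_zero])
    have b2 := hs x y (h2 x List.mem_cons_self) (h2 y (by simp)) (a1 y List.mem_cons_self)
      fun e => h3 (by rw [ps, ps, Matrix.mulVec_mulVec, e, Sm3, Matrix.zero_mulVec])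
    rw [List.length_cons]
    omega

theorem tucker3 {r : α → α → Prop} (Q : ℕ → α → Prop) (b : ℕ) (g : α → α)
    (g3 : ∀ x, g (g (g x)) = x) (gr : ∀ x y, r x y → r (g x) (g y))
    (gQ : ∀ n x, Q n x → Q n (g x)) (hQ : ∀ n ≤ b, ∀ x, Q n x → Q b x)
    (hb : ∀ n < b, ∀ z ∈ CC r (Q n) n, bd z = 0 → ∃ w ∈ CC r (Q (n + 1)) (n + 1), bd w = z)
    (u : α → ZMod 3) (hu : ∀ x, Q b x → u (g x) = u x + 1) (M : α → ℕ) (m : ℕ)
    (hM : ∀ x, Q b x → M x < m)
    (hs : ∀ x y, Q b x → Q b y → r x y → u x ≠ u y → M x < M y) : b ≤ m := by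
  set T : Ch α →ₗ[ZMod 3] Ch α := mp g - LinearMap.id with hT
  have T0 : ∀ c, T c = mp g c - c := fun c => rfl
  have T1 : ∀ n, ∀ c ∈ CC r (Q n) n, T c ∈ CC r (Q n) n := fun n c hc =>
    Submodule.sub_mem _ (mp_mem gr (gQ n) hc) hc
  have T2 : ∀ c, bd (T c) = T (bd c) := fun c => by rw [T0, T0, map_sub, bd_mp]
  have T3 : ∀ c, T (T (T c)) = 0 := by
    intro c
    have e : mp g (mp g (mp g c)) = c :=
      ch_ext (mp g ∘ₗ mp g ∘ₗ mp g) LinearMap.id (by simp [Function.comp_def, g3]) c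
    have three : ∀ v : Ch α, v + v + v = 0 := fun v => by
      have : (1 + 1 + 1 : ZMod 3) = 0 := by decide
      simpa [add_smul] using congrArg (· • v) this
    simp only [T0, map_sub, e]
    rw [← three (mp g c - mp g (mp g c))]
    abel
  have T4 : ∀ n ≤ b, ∀ p, ∀ c ∈ CC r (Q n) n, Ps u p (T c) = Tm.mulVec (Ps u p c) := by
    intro n hn p c hc
    have := CC_map (Ps u p ∘ₗ T - Tm.mulVecLin ∘ₗ Ps u p) ⊥ (fun l _ h2 _ => by
      simp [T0, ps_map u g l (fun x hx => hu x (hQ n hn x (h2 x hx))), Matrix.add_mulVec]) hc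
    exact sub_eq_zero.mp this
  have key : ∀ n, n + 1 ≤ b → ∃ p, ∃ X ∈ CC r (Q (n + 1)) (n + 1),
      bd (if p then T X else T (T X)) = 0 ∧ Ps u p X 0 = 1 := by
    intro n
    induction n with
    | zero =>
      intro h
      obtain ⟨w, w1, w2⟩ := hb 0 h (single [] 1) (single_mem (by simp) (by simp) rfl)
        (by simp [bd0])
      refine ⟨true, w, w1, by rw [if_pos rfl, T2, w2, T0]; simp, ?_⟩
      have := Ps_bd u true w
      rw [w2, Ps_single] at this
      have e : (Dm true).mulVec ![1, 0, 0] = ps u (!true) [] := by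
        simp only [ps]
        decide +kernel
      have := Dm0 true (Ps u true w - ![1, 0, 0]) (by rw [Matrix.mulVec_sub, this, e, sub_self])
      exact sub_eq_zero.mp this
    | succ n ih =>
      intro h
      obtain ⟨p, X, x1, x2, x3⟩ := ih (by omega)
      obtain ⟨w, w1, w2⟩ := hb (n + 1) h (if p then T X else T (T X))
        (by
          split_ifs
          · exact T1 _ _ x1
          · exact T1 _ _ (T1 _ _ x1)) x2
      refine ⟨!p, w, w1, ?_, ?_⟩
      · cases p <;> simp [T2, w2, T3]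
      · have a1 := Ps_bd u (!p) w
        have a2 : Ps u p (if p then T X else T (T X)) = (Dm (!p)).mulVec (Ps u p X) := by
          have hn : n + 1 ≤ b := by omega
          cases p
          · simp [Dm, T4 _ hn _ _ (T1 _ _ x1), T4 _ hn _ _ x1]
          · simp [Dm, T4 _ hn _ _ x1]
        rw [w2, Bool.not_not, a2] at a1
        have := Dm0 (!p) (Ps u (!p) w - Ps u p X) (by rw [Matrix.mulVec_sub, a1, sub_self])
        rw [← x3]
        exact sub_eq_zero.mp this
  rcases b with _ | b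
  · exact Nat.zero_le _
  obtain ⟨p, X, x1, -, x3⟩ := key b le_rfl
  by_contra hlt
  have := CC_map (Ps u p) ⊥ (fun l h1 h2 h3 => by
    rcases l with _ | ⟨x, l⟩
    · simp at h3
    · rw [Ps_single, Submodule.mem_bot]
      by_contra e
      have := ps_ne u M m hM hs l x p h1 h2 e
      rw [List.length_cons] at h3
      omega) x1
  rw [(Submodule.mem_bot _).mp this] at x3
  exact absurd x3 (by decide)

end Pool.Agent.P.MP_4cdbfb_co.Z3
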