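import Pool.Agent.P.MP_4cdbfb_co.Chain

namespace Pool.Agent.P.MP_4cdbfb_co.Z3

/-- The face order of the subdivided ray: even numbers are vertices, odd numbers are edges. -/
def le1 (a a' : ℕ) : Prop := a = a' ∨ (a' % 2 = 1 ∧ (a + 1 = a' ∨ a = a' + 1))

/-- Points of a product of tripods. -/
abbrev Pt (b : ℕ) := Fin b → ZMod 3 → ℕ

/-- The face order on points. -/
def leP {b : ℕ} (y y' : Pt b) : Prop := ∀ j h, le1 (y j h) (y' j h)

/-- The rotation of all tripods. -/
def rot {b : ℕ} (a : ZMod 3) (y : Pt b) : Pt b := fun j h => y j (h - a)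

/-- The boundary of the product of the first `n` tripods. -/
def Sup {b : ℕ} (L n : ℕ) (y : Pt b) : Prop :=
  (∀ j h, y j h ≤ 2 * L) ∧ (∀ j h h', y j h ≠ 0 → y j h' ≠ 0 → h = h') ∧
    (∀ j h, n ≤ j.val → y j h = 0) ∧ ∃ j h, y j h = 2 * L

/-- The second point is close to the rotation of the first. -/
def Nr {b : ℕ} (y y' : Pt b) : Prop :=
  ∀ j h, y' j h ≤ y j (h - 1) + 2 ∧ y j (h - 1) ≤ y' j h + 2

theorem rot_rot {b : ℕ} (a a' : ZMod 3) (y : Pt b) : rot a (rot a' y) = rot (a + a') y := by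
  funext j h
  simp [rot, sub_sub]

theorem rot_zero {b : ℕ} (y : Pt b) : rot 0 y = y := by
  funext j h
  simp [rot]

theorem Sup_rot {b L n : ℕ} (a : ZMod 3) {y : Pt b} (h : Sup L n y) : Sup L n (rot a y) := by
  obtain ⟨h1, h2, h3, j, k, h4⟩ := h
  refine ⟨fun j k => h1 _ _, fun j k k' e e' => sub_left_injective (h2 j _ _ e e'),
    fun j k e => h3 _ _ e, j, k + a, by simp [rot, h4]⟩

theorem grid_bound {b L n k : ℕ} (hn : n < b) {z : Ch (Pt b)} (hz : z ∈ CC leP (Sup L n) k)
    (hb : bd z = 0) : ∃ w ∈ CC leP (Sup L (n + 1)) (k + 1), bd w = z := by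
  refine bound ?_ (fun s y j h => if j.val = n ∧ h = 0 then min s (2 * L)
    else if j.val = n then 0 else min (y j h) (4 * L - s)) (4 * L)
    (fun j h => if j.val = n ∧ h = 0 then 2 * L else 0) ?_ ?_ ?_ ?_ ?_ ?_ hz hb
  · intro x y z h1 h2 j h
    have := h1 j h
    have := h2 j h
    unfold le1 at *
    omega
  · intro s x y h1 j h
    have := h1 j h
    unfold le1 at *
    simp only
    split_ifs <;> omega
  · intro s
    rcases Nat.mod_two_eq_zero_or_one s with e | e
    · refine Or.inl fun x j h => ?_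
      unfold le1
      simp only
      split_ifs <;> omega
    · refine Or.inr fun x j h => ?_
      unfold le1
      simp only
      split_ifs <;> omega
  · intro x hx
    funext j h
    have := hx.1 j h
    have := hx.2.2.1 j h
    split_ifs <;> omega
  · rintro s x ⟨h1, h2, h3, j0, k0, h4⟩
    refine ⟨fun j h => ?_, fun j h h' => ?_, fun j h e => ?_, ?_⟩
    · have := h1 j h
      simp only
      split_ifs <;> omega
    · simp only
      intro a1 a2
      by_cases q : j.val = n
      · simp only [q, true_and, if_true] at a1 a2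
        have e1 : h = 0 := by
          by_contra e
          simp [e] at a1
        have e2 : h' = 0 := by
          by_contra e
          simp [e] at a2
        rw [e1, e2]
      · simp only [q, false_and, if_false] at a1 a2
        exact h2 j h h' (by omega) (by omega)
    · have := h3 j h (by omega)
      simp only
      split_ifs <;> omega
    · by_cases q : 2 * L ≤ s
      · exact ⟨⟨n, hn⟩, 0, by simp [q]⟩
      · have := h3 j0 k0
        refine ⟨j0, k0, ?_⟩
        simp only
        split_ifs <;> omega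
  · intro x j h
    unfold le1
    simp only
    split_ifs <;> omega
  · refine ⟨fun j h => ?_, fun j h h' a1 a2 => ?_, fun j h e => ?_, ⟨n, hn⟩, 0, by simp⟩
    · simp only
      split_ifs <;> omega
    · have e1 : h = 0 := by
        by_contra e
        simp [e] at a1
      have e2 : h' = 0 := by
        by_contra e
        simp [e] at a2
      rw [e1, e2]
    · simp only
      split_ifs <;> omega

theorem grid_col (b L m : ℕ) (c : Pt b → ℕ) (hc : ∀ y, Sup L b y → c y < m)
    (hp : ∀ y y', Sup L b y → Sup L b y' → Nr y y' → c y ≠ c y') : b ≤ m := by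
  classical
  let W : Pt b → ZMod 3 → ℕ → Prop := fun y h n =>
    ∃ w, Sup L b w ∧ leP w y ∧ c (rot (-h) w) = n
  have uniq : ∀ y h h' n, W y h n → W y h' n → h = h' := by
    have aux : ∀ y h n, W y (h + 1) n → ¬ W y h n := by
      rintro y h n ⟨w, w1, w2, w3⟩ ⟨w', v1, v2, v3⟩
      refine hp _ _ (Sup_rot _ w1) (Sup_rot _ v1) (fun j k => ?_) (w3.trans v3.symm)
      have e : k - 1 - -(h + 1) = k - -h := by ring
      have := w2 j (k - -h)
      have := v2 j (k - -h)
      unfold le1 at *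
      simp only [rot, e]
      omega
    intro y h h' n a1 a2
    have : ∀ h h' : ZMod 3, h = h' ∨ h = h' + 1 ∨ h' = h + 1 := by decide
    rcases this h h' with e | rfl | rfl
    · exact e
    · exact absurd a2 (aux _ _ _ a1)
    · exact absurd a1 (aux _ _ _ a2)
  have mono : ∀ y y' h n, leP y y' → W y h n → W y' h n := by
    rintro y y' h n e ⟨w, w1, w2, w3⟩
    refine ⟨w, w1, fun j k => ?_, w3⟩
    have := w2 j k
    have := e j k
    unfold le1 at *
    omega
  have equi : ∀ a y h n, W y h n → W (rot a y) (h + a) n := by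
    rintro a y h n ⟨w, w1, w2, w3⟩
    refine ⟨rot a w, Sup_rot _ w1, fun j k => w2 _ _, ?_⟩
    rw [rot_rot, ← w3]
    congr 2
    ring
  have lt : ∀ y h n, W y h n → n < m := by
    rintro y h n ⟨w, w1, -, rfl⟩
    exact hc _ (Sup_rot _ w1)
  have ex : ∀ y, ∃ h n, Sup L b y → W y h n ∧ ∀ h' n', W y h' n' → n' ≤ n := by
    intro y
    by_cases hy : Sup L b y
    · have bd : BddAbove {n | ∃ h, W y h n} := ⟨m, fun n ⟨h, e⟩ => (lt y h n e).le⟩
      obtain ⟨h, e⟩ := Nat.sSup_mem (s := {n | ∃ h, W y h n})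
        ⟨_, 0, y, hy, fun j k => Or.inl rfl, rfl⟩ bd
      exact ⟨h, _, fun _ => ⟨e, fun h' n' e' => le_csSup bd ⟨h', e'⟩⟩⟩
    · exact ⟨0, 0, fun h => absurd h hy⟩
  choose u M hu using ex
  refine tucker3 (r := leP) (Sup L) b (rot 1) (fun x => ?_) (fun x y e j h => e _ _)
    (fun n x => Sup_rot 1) (fun n _ x hx => ⟨hx.1, hx.2.1, fun j h e => ?_, hx.2.2.2⟩)
    (fun n hn z hz hb => grid_bound hn hz hb) u (fun x hx => ?_) M m
    (fun x hx => lt _ _ _ (hu x hx).1) fun x y hx hy e ne => ?_
  · rw [rot_rot, rot_rot, show (1 + 1 + 1 : ZMod 3) = 0 by decide, rot_zero]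
  · omega
  · have a1 := equi 1 _ _ _ (hu x hx).1
    have a2 := hu _ (Sup_rot 1 hx)
    have a3 := equi (-1) _ _ _ a2.1
    rw [rot_rot, neg_add_cancel, rot_zero] at a3
    have := le_antisymm (a2.2 _ _ a1) ((hu x hx).2 _ _ a3)
    rw [this] at a1
    exact uniq _ _ _ _ a2.1 a1
  · have a1 := mono _ _ _ _ e (hu x hx).1
    refine lt_of_le_of_ne ((hu y hy).2 _ _ a1) fun q => ne ?_
    rw [q] at a1
    exact uniq _ _ _ _ a1 (hu y hy).1

theorem exists_template3 (t L : ℕ) (hL : 2 ≤ L) :
    ∃ (V : Type) (_ : Finite V) (B : V → V → Prop) (Y : V → Pt (t + 1)),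
      (∀ u, ¬ B u u) ∧ (∀ c : V → Fin t, ∃ u v, B u v ∧ c u = c v) ∧
      (∀ u v, B u v → Nr (Y u) (Y v)) ∧ ∀ u, Sup L (t + 1) (Y u) := by
  classical
  refine ⟨{y : Pt (t + 1) // Sup L (t + 1) y}, ?_, fun u v => Nr u.1 v.1, Subtype.val, ?_, ?_,
    fun _ _ h => h, Subtype.property⟩
  · exact (Set.finite_Iic fun _ _ => 2 * L).subset fun y hy j h => hy.1 j h
  · rintro ⟨y, h1, h2, h3, j, h, h4⟩ e
    have a1 := (e j (h + 1)).2
    simp only [add_sub_cancel_right] at a1
    have := h2 j h (h + 1) (by omega) (by omega)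
    simp at this
  · intro c
    by_contra hn
    push Not at hn
    have := grid_col (t + 1) L t (fun y => if h : Sup L (t + 1) y then (c ⟨y, h⟩).val else 0)
      (fun y hy => by simp [hy]) fun y y' hy hy' e => by
        simp only [hy, hy', dif_pos]
        exact fun q => hn ⟨y, hy⟩ ⟨y', hy'⟩ e (Fin.ext q)
    omega

end Pool.Agent.P.MP_4cdbfb_co.Z3
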