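import Mathlib

namespace Pool.Agent.P.MP_4cdbfb_co.Z3

open Finset Complex ComplexConjugate

/-- The weight of the cubic term. -/
noncomputable def mu (w : ℂ × ℂ) : ℝ := max 0 (‖w.2‖ ^ 2 - 2 * ‖w.1‖)

/-- The symmetry breaking term. -/
noncomputable def bu (w : ℂ × ℂ) (τ : ℝ) : ℝ := τ * max 0 (w.1.re - |w.1.im| - ‖w.2‖ ^ 2)

/-- A null-homotopy of an equivariant self-map of `ℂ² \ 0`. -/
noncomputable def EE (w : ℂ × ℂ) (τ : ℝ) : ℂ × ℂ :=
  (conj (w.1 - τ) ^ 2 - w.1 * conj w.2 ^ 2,
    w.2 * (conj (w.1 - τ) * w.1 - mu w * w.2 ^ 2) + I * bu w τ)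

theorem continuous_EE {X : Type} [TopologicalSpace X] {f : X → ℂ × ℂ} {g : X → ℝ}
    (hf : Continuous f) (hg : Continuous g) : Continuous fun p => EE (f p) (g p) := by
  unfold EE mu bu
  fun_prop

theorem EE_ne (w : ℂ × ℂ) (τ : ℝ) (hτ : 0 ≤ τ) (h : w ≠ 0 ∨ τ ≠ 0) : EE w τ ≠ 0 := by
  obtain ⟨z, y⟩ := w
  intro e
  have e1 : conj (z - τ) ^ 2 - z * conj y ^ 2 = 0 := congrArg Prod.fst e
  have e2 : y * (conj (z - τ) * z - mu (z, y) * y ^ 2) + I * bu (z, y) τ = 0 := congrArg Prod.snd e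
  set u : ℂ := z - τ with hu
  have e3 : u ^ 2 = conj z * y ^ 2 := by
    have := congrArg conj e1
    simp only [map_sub, map_pow, map_mul, conj_conj, map_zero] at this
    exact sub_eq_zero.mp this
  have nu : u * conj u = (normSq u : ℂ) := mul_conj u
  have nz : z * conj z = (normSq z : ℂ) := mul_conj z
  have b0 : 0 ≤ bu (z, y) τ := mul_nonneg hτ (le_max_left _ _)
  rcases b0.eq_or_lt with hb | hb
  · rw [← hb] at e2
    simp only [ofReal_zero, mul_zero, add_zero, mul_eq_zero] at e2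
    have hy : y ≠ 0 := by
      rintro rfl
      have u0 : u = 0 := by simpa using e3
      have z0 : z = τ := sub_eq_zero.mp u0
      have t0 : τ = 0 := by
        have : τ * max 0 τ = 0 := by simpa [bu, z0] using hb.symm
        rw [max_eq_right hτ] at this
        exact mul_self_eq_zero.mp this
      rcases h with h | h
      · exact h (by simp [z0, t0])
      · exact h t0
    have e4 : conj u * z = mu (z, y) * y ^ 2 := sub_eq_zero.mp (e2.resolve_left hy)
    have py : 0 < ‖y‖ := norm_pos_iff.mpr hy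
    have hz : z ≠ 0 := by
      rintro rfl
      have : mu (0, y) = ‖y‖ ^ 2 := by simp [mu]
      rw [this] at e4
      simp [hy] at e4
    have hu0 : u ≠ 0 := by
      intro q
      rw [q] at e3
      simp [hy, hz] at e3
    have m0 : 0 < mu (z, y) := by
      refine lt_of_le_of_ne (le_max_left _ _) fun q => ?_
      rw [← q] at e4
      simp [hz, hu0] at e4
    have m1 : 2 * ‖z‖ < ‖y‖ ^ 2 := by
      have := lt_max_iff.mp m0
      simp only [lt_self_iff_false, false_or] at this
      linarith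
    have e5 : (mu (z, y) : ℂ) * u ^ 3 = (normSq z * normSq u : ℝ) := by
      push_cast
      rw [← nu, ← nz]
      linear_combination (mu (z, y) : ℂ) * u * e3 - conj z * u * e4
    have r1 := congrArg re e5
    have r2 := congrArg im e5
    simp only [pow_succ, pow_zero, one_mul, mul_re, mul_im, ofReal_re, ofReal_im, zero_mul,
      sub_zero, add_zero] at r1 r2
    have pz : 0 < normSq z := normSq_pos.mpr hz
    have pu : 0 < normSq u := normSq_pos.mpr hu0
    have ur : z.re = u.re + τ := by simp [hu]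
    have ui : z.im = u.im := by simp [hu]
    have key : 3 * normSq u ≤ 4 * normSq z := by
      have s1 : 0 < u.re * (u.re ^ 2 - 3 * u.im ^ 2) := by
        have : 0 < mu (z, y) * (u.re * (u.re ^ 2 - 3 * u.im ^ 2)) := by nlinarith [mul_pos pz pu]
        exact (mul_pos_iff_of_pos_left m0).mp this
      have s2 : u.im * (3 * u.re ^ 2 - u.im ^ 2) = 0 := by
        have : mu (z, y) * (u.im * (3 * u.re ^ 2 - u.im ^ 2)) = 0 := by linarith
        exact (mul_eq_zero.mp this).resolve_left m0.ne'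
      rw [normSq_apply, normSq_apply, ur, ui]
      rcases mul_eq_zero.mp s2 with q | q
      · rw [q] at s1 ⊢
        have : 0 < u.re := by
          by_contra hn
          push Not at hn
          nlinarith [sq_nonneg u.re]
        nlinarith
      · nlinarith [sq_nonneg (u.re + τ)]
    have e6 : ‖u‖ ^ 2 = ‖z‖ * ‖y‖ ^ 2 := by
      have := congrArg norm e3
      simpa using this
    rw [normSq_eq_norm_sq, normSq_eq_norm_sq] at key
    have qz : 0 < ‖z‖ := norm_pos_iff.mpr hz
    nlinarith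
  · have b1 : |z.im| + ‖y‖ ^ 2 < z.re := by
      have : 0 < max 0 (z.re - |z.im| - ‖y‖ ^ 2) := by
        refine lt_of_le_of_ne (le_max_left _ _) fun q => hb.ne ?_
        show 0 = τ * max 0 (z.re - |z.im| - ‖y‖ ^ 2)
        rw [← q, mul_zero]
      have := lt_max_iff.mp this
      simp only [lt_self_iff_false, false_or] at this
      linarith
    have m0 : mu (z, y) = 0 := by
      refine max_eq_left ?_
      have := re_le_norm z
      have := abs_nonneg z.im
      have := norm_nonneg z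
      show ‖y‖ ^ 2 - 2 * ‖z‖ ≤ 0
      linarith
    rw [m0] at e2
    have e5 : ((normSq u ^ 2 : ℝ) : ℂ) * z ^ 3 = (-(bu (z, y) τ ^ 2 * normSq z) : ℝ) := by
      push_cast at e2 ⊢
      rw [← nu, ← nz]
      linear_combination (conj u) ^ 2 * z ^ 3 * e3 +
        z * conj z * (y * conj u * z - I * bu (z, y) τ) * e2 +
        z * conj z * (bu (z, y) τ : ℂ) ^ 2 * I_mul_I
    have r1 := congrArg re e5
    have r2 := congrArg im e5
    simp only [pow_succ, pow_zero, one_mul, mul_re, mul_im, ofReal_re, ofReal_im, zero_mul,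
      sub_zero, add_zero] at r1 r2
    have a1 := abs_nonneg z.im
    have a2 := sq_nonneg ‖y‖
    have x0 : 0 < z.re := by linarith
    have x1 : z.im ^ 2 < z.re ^ 2 := by
      rw [← sq_abs z.im]
      exact pow_lt_pow_left₀ (by linarith) a1 two_ne_zero
    have pz : 0 < normSq z := normSq_pos.mpr fun q => by simp [q] at x0
    have neg : normSq u * normSq u * (z.re * (z.re ^ 2 - 3 * z.im ^ 2)) < 0 := by
      nlinarith [mul_pos (mul_pos hb hb) pz]
    have s2 : normSq u * normSq u * (z.im * (3 * z.re ^ 2 - z.im ^ 2)) = 0 := by linarith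
    rcases mul_eq_zero.mp s2 with q | q
    · rw [q] at neg
      simp at neg
    · rcases mul_eq_zero.mp q with q | q
      · rw [q] at neg
        have := mul_nonneg (mul_self_nonneg (normSq u)) (pow_pos x0 3).le
        nlinarith
      · nlinarith

/-- The character of the cyclic group of order six. -/
noncomputable def ch (k : ZMod 6) : ℂ := ZMod.stdAddChar k

theorem ch_add (k l : ZMod 6) : ch (k + l) = ch k * ch l := AddChar.map_add_eq_mul _ _ _

theorem ch_zero : ch 0 = 1 := AddChar.map_zero_eq_one _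

theorem ch_six (k : ZMod 6) : ch k ^ 6 = 1 := by
  unfold ch
  rw [← AddChar.map_nsmul_eq_pow]
  have : (6 : ℕ) • k = 0 := by
    revert k
    decide
  rw [this, AddChar.map_zero_eq_one]

theorem ch_norm (k : ZMod 6) : ‖ch k‖ = 1 :=
  norm_eq_one_of_pow_eq_one (ch_six k) (by norm_num)

theorem ch_conj (k : ZMod 6) : ch k * conj (ch k) = 1 := by
  rw [mul_conj, normSq_eq_norm_sq, ch_norm]
  simp

theorem ch_one : ch 1 ^ 3 = -1 ∧ (ch 1 ^ 2).re = -1 / 2 := by
  have inj := ZMod.injective_stdAddChar (N := 6)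
  have h3 : ch 1 ^ 3 ≠ 1 := by
    unfold ch
    rw [← AddChar.map_nsmul_eq_pow, ← AddChar.map_zero_eq_one (ZMod.stdAddChar (N := 6))]
    exact fun e => absurd (inj e) (by decide)
  have h2 : ch 1 ^ 2 ≠ 1 := by
    unfold ch
    rw [← AddChar.map_nsmul_eq_pow, ← AddChar.map_zero_eq_one (ZMod.stdAddChar (N := 6))]
    exact fun e => absurd (inj e) (by decide)
  have h6 := ch_six 1
  have hc := ch_conj 1
  constructor
  · have : (ch 1 ^ 3 - 1) * (ch 1 ^ 3 + 1) = 0 := by linear_combination h6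
    exact eq_neg_of_add_eq_zero_left ((mul_eq_zero.mp this).resolve_left (sub_ne_zero.mpr h3))
  · have : (ch 1 ^ 2 - 1) * (ch 1 ^ 4 + ch 1 ^ 2 + 1) = 0 := by linear_combination h6
    have h := (mul_eq_zero.mp this).resolve_left (sub_ne_zero.mpr h2)
    have e : ch 1 ^ 2 + conj (ch 1 ^ 2) = -1 := by
      rw [map_pow]
      linear_combination h - conj (ch 1) ^ 2 * h6 +
        ch 1 ^ 4 * (ch 1 * conj (ch 1) + 1) * hc
    have := congrArg re e
    simp only [add_re, conj_re, neg_re, one_re] at this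
    linarith

/-- The action of the cyclic group of order six. -/
noncomputable def act (k : ZMod 6) : ℂ × ℂ →L[ℂ] ℂ × ℂ :=
  (ch k ^ 2 • ContinuousLinearMap.fst ℂ ℂ ℂ).prod (ch k ^ 3 • ContinuousLinearMap.snd ℂ ℂ ℂ)

theorem act_apply (k : ZMod 6) (w : ℂ × ℂ) : act k w = (ch k ^ 2 * w.1, ch k ^ 3 * w.2) := rfl

theorem act_add (k l : ZMod 6) (w : ℂ × ℂ) : act (k + l) w = act k (act l w) := by
  simp only [act_apply, ch_add]
  exact Prod.ext (by ring) (by ring)

theorem act_zero (w : ℂ × ℂ) : act 0 w = w := by simp [act_apply, ch_zero]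

theorem act_ne (k : ZMod 6) {w : ℂ × ℂ} (h : w ≠ 0) : act k w ≠ 0 := by
  intro e
  apply h
  rw [← act_zero w, ← neg_add_cancel k, act_add, e, map_zero]

theorem EE_act (k : ZMod 6) (w : ℂ × ℂ) : EE (act k w) 0 = act k (EE w 0) := by
  have h6 := ch_six k
  have hc := ch_conj k
  have m : mu (act k w) = mu w := by simp [mu, act_apply, ch_norm]
  have c5 : conj (ch k) = ch k ^ 5 := by linear_combination ch k ^ 5 * hc - conj (ch k) * h6
  unfold EE
  rw [m]
  simp only [act_apply, bu, ofReal_zero, sub_zero, zero_mul, mul_zero, add_zero, map_mul, map_pow,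
    c5]
  refine Prod.ext ?_ ?_
  · show _ = _
    linear_combination (ch k ^ 2 * (ch k ^ 12 + ch k ^ 6 + 1) * conj w.1 ^ 2 -
      ch k ^ 2 * (ch k ^ 24 + ch k ^ 18 + ch k ^ 12 + ch k ^ 6 + 1) * w.1 * conj w.2 ^ 2) * h6
  · show _ = _
    linear_combination (ch k ^ 3 * (ch k ^ 6 + 1) * w.2 * conj w.1 * w.1 -
      ch k ^ 3 * mu w * w.2 ^ 3) * h6

/-- One step of the construction. -/
noncomputable def St (w : ℂ × ℂ) (τ : ZMod 6 → ℝ) : ℂ × ℂ :=
  EE w 0 + ∑ k, (act k (EE (act (-k) w) (τ k)) - EE w 0)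

theorem St_act (w : ℂ × ℂ) (τ τ' : ZMod 6 → ℝ) (h : ∀ k, τ' (k + 1) = τ k) :
    St (act 1 w) τ' = act 1 (St w τ) := by
  unfold St
  rw [map_add, map_sum, EE_act, ← Equiv.sum_comp (Equiv.addRight (1 : ZMod 6))]
  congr 1
  refine sum_congr rfl fun k _ => ?_
  simp only [Equiv.coe_addRight, map_sub, h]
  have e : -(k + 1) + 1 = -k := by ring
  rw [← act_add (-(k + 1)) 1, ← act_add 1 k, add_comm 1 k, e]

theorem St_ne (w : ℂ × ℂ) (τ : ZMod 6 → ℝ) (h0 : ∀ k, 0 ≤ τ k)
    (h1 : ∀ k l, τ k ≠ 0 → τ l ≠ 0 → k = l) (h : w ≠ 0 ∨ ∃ k, τ k ≠ 0) : St w τ ≠ 0 := by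
  have z : ∀ k, τ k = 0 → act k (EE (act (-k) w) (τ k)) - EE w 0 = 0 := by
    intro k e
    rw [e, ← EE_act, ← act_add, add_neg_cancel, act_zero, sub_self]
  unfold St
  by_cases q : ∃ k, τ k ≠ 0
  · obtain ⟨k, hk⟩ := q
    rw [sum_eq_single k (fun l _ hl => z l (by
      by_contra e
      exact hl (h1 l k e hk))) (by simp), add_sub_cancel]
    exact act_ne _ (EE_ne _ _ (h0 k) (Or.inr hk))
  · rw [sum_eq_zero fun k _ => z k (by
      by_contra e
      exact q ⟨k, e⟩), add_zero]
    exact EE_ne _ _ le_rfl (Or.inl (h.resolve_right q))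

theorem build {X ι : Type} [TopologicalSpace X] [DecidableEq ι] (γ : X → X)
    (τ : ι → ZMod 6 → X → ℝ) (hc : ∀ i k, Continuous (τ i k))
    (he : ∀ i k p, τ i (k + 1) (γ p) = τ i k p) (s : Finset ι) :
    ∃ F : X → ℂ × ℂ, Continuous F ∧ (∀ p, F (γ p) = act 1 (F p)) ∧
      ∀ p, (∀ i k, 0 ≤ τ i k p) → (∀ i k l, τ i k p ≠ 0 → τ i l p ≠ 0 → k = l) →
        (∃ i ∈ s, ∃ k, τ i k p ≠ 0) → F p ≠ 0 := by
  induction s using Finset.induction_on with
  | empty => exact ⟨fun _ => 0, continuous_const, by simp, by simp⟩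
  | insert i s _ ih =>
    obtain ⟨F, f1, f2, f3⟩ := ih
    refine ⟨fun p => St (F p) fun k => τ i k p, ?_, fun p => ?_, fun p h0 h1 h2 => ?_⟩
    · unfold St
      have c0 : Continuous fun p => EE (F p) 0 := continuous_EE f1 continuous_const
      refine c0.add (continuous_finsetSum _ fun k _ => Continuous.sub ?_ c0)
      have c1 : Continuous fun p => act (-k) (F p) := (act (-k)).continuous.comp f1
      have c2 : Continuous fun p => EE (act (-k) (F p)) (τ i k p) := continuous_EE c1 (hc i k)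
      exact (act k).continuous.comp c2
    · simp only [f2]
      exact St_act _ _ _ fun k => he i k p
    · refine St_ne _ _ (h0 i) (h1 i) ?_
      obtain ⟨j, hj, hk⟩ := h2
      rcases mem_insert.mp hj with rfl | hj
      · exact Or.inr hk
      · exact Or.inl (f3 p h0 h1 ⟨j, hj, hk⟩)

end Pool.Agent.P.MP_4cdbfb_co.Z3
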