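import Pool.Agent.P.MP_4cdbfb_co.Template
import Pool.Agent.P.MP_4cdbfb_co.Grid
import Pool.Agent.P.MP_4cdbfb_co.Map

namespace Pool.Agent.P.MP_4cdbfb_co.Z3

open Complex Filter Topology

/-- The ambient space. -/
abbrev XX (t : ℕ) := (Fin (t + 1) → ℝ) × (Fin (t + 1) → ZMod 3 → ℝ)

/-- The generator of the action of the cyclic group of order six. -/
def gam {t : ℕ} (p : XX t) : XX t := (-p.1, fun j h => p.2 j (h - 1))

/-- The compact set that carries the product graph. -/
def KK (t : ℕ) : Set (XX t) :=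
  {p | (∀ i, |p.1 i| ≤ 1) ∧ (∃ i, p.1 i = 1) ∧ (∀ j h, 0 ≤ p.2 j h ∧ p.2 j h ≤ 1) ∧
    (∀ j h h', h ≠ h' → p.2 j h * p.2 j h' = 0) ∧ ∃ j h, p.2 j h = 1}

theorem KK_compact (t : ℕ) : IsCompact (KK t) := by
  refine (isCompact_closedBall (0 : XX t) 1).of_isClosed_subset ?_ ?_
  · unfold KK
    simp only [Set.ofPred_and, Set.ofPred_forall, Set.ofPred_exists]
    refine (isClosed_iInter fun i => isClosed_le (by fun_prop) (by fun_prop)).inter
      ((isClosed_iUnion_of_finite fun i => isClosed_eq (by fun_prop) (by fun_prop)).inter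
      ((isClosed_iInter fun j => isClosed_iInter fun h =>
        (isClosed_le (by fun_prop) (by fun_prop)).inter
          (isClosed_le (by fun_prop) (by fun_prop))).inter
      ((isClosed_iInter fun j => isClosed_iInter fun h => isClosed_iInter fun h' =>
        isClosed_iInter fun _ => isClosed_eq (by fun_prop) (by fun_prop)).inter
      (isClosed_iUnion_of_finite fun j => isClosed_iUnion_of_finite fun h =>
        isClosed_eq (by fun_prop) (by fun_prop)))))
  · rintro p ⟨h1, -, h3, -⟩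
    rw [mem_closedBall_zero_iff, norm_prod_le_iff, pi_norm_le_iff_of_nonneg zero_le_one,
      pi_norm_le_iff_of_nonneg zero_le_one]
    refine ⟨h1, fun j => (pi_norm_le_iff_of_nonneg zero_le_one).mpr fun h => ?_⟩
    rw [Real.norm_of_nonneg (h3 j h).1]
    exact (h3 j h).2

/-- The sign character. -/
def sg (k : ZMod 6) : ℤ := (-1) ^ k.val

/-- Reduction mod three. -/
def md (k : ZMod 6) : ZMod 3 := k.val

theorem exists_F (t : ℕ) : ∃ F : XX t → ℂ × ℂ, Continuous F ∧ (∀ p, F (gam p) = act 1 (F p)) ∧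
    ∀ p ∈ KK t, F p ≠ 0 := by
  have s1 : ∀ k, sg (k + 1) = -sg k := by decide
  have s2 : ∀ k, md (k + 1) - 1 = md k := by decide
  have s3 : ∀ k l, md k = md l → k = l ∨ sg l = -sg k := by decide
  have s4 : ∀ h, ∃ k, sg k = 1 ∧ md k = h := by decide
  obtain ⟨F, f1, f2, f3⟩ := build (gam (t := t))
    (fun (i : Fin (t + 1) × Fin (t + 1)) k p => max 0 (sg k * p.1 i.1) * p.2 i.2 (md k))
    (fun i k => by fun_prop) (fun i k p => by simp [gam, s1, s2]) Finset.univ
  refine ⟨F, f1, f2, fun p ⟨_, ⟨i, h2⟩, h3, h4, j, h, h5⟩ => f3 p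
    (fun i k => mul_nonneg (le_max_left _ _) (h3 _ _).1) (fun i k l a1 a2 => ?_) ?_⟩
  · have e : md k = md l := by
      by_contra e
      rcases mul_eq_zero.mp (h4 i.2 _ _ e) with q | q
      · exact a1 (by simp [q])
      · exact a2 (by simp [q])
    refine (s3 k l e).resolve_right fun q => ?_
    have b1 := left_ne_zero_of_mul a1
    have b2 := left_ne_zero_of_mul a2
    rw [q] at b2
    push_cast at b2
    rcases le_total (sg k * p.1 i.1) 0 with c | c
    · exact b1 (max_eq_left c)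
    · exact b2 (max_eq_left (by linarith))
  · obtain ⟨k, k1, k2⟩ := s4 h
    exact ⟨(i, j), Finset.mem_univ _, k, by simp [k1, k2, h2, h5]⟩

/-- The real inner product. -/
def ip (w w' : ℂ × ℂ) : ℝ :=
  w.1.re * w'.1.re + w.1.im * w'.1.im + w.2.re * w'.2.re + w.2.im * w'.2.im

theorem ip_act {w : ℂ × ℂ} (h : w ≠ 0) : ip w (act 1 w) < 0 := by
  obtain ⟨h3, h2⟩ := ch_one
  have : ip w (act 1 w) = -(normSq w.1 / 2 + normSq w.2) := by
    simp only [ip, act_apply, h3, mul_re, mul_im, h2, normSq_apply, neg_re, one_re, neg_im, one_im]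
    ring
  rw [this]
  have a1 := normSq_nonneg w.1
  have a2 := normSq_nonneg w.2
  by_cases e : w.1 = 0
  · have := normSq_pos.mpr (show w.2 ≠ 0 from fun q => h (Prod.ext e q))
    linarith
  · have := normSq_pos.mpr e
    linarith

theorem exists_col (t : ℕ) : ∃ (c : XX t → Bool × Bool × Bool × Bool) (δ : ℝ), 0 < δ ∧
    ∀ p ∈ KK t, ∀ q, ‖q - gam p‖ < δ → c p ≠ c q := by
  classical
  obtain ⟨F, f1, f2, f3⟩ := exists_F t
  have g1 : Continuous (gam (t := t)) := by
    unfold gam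
    fun_prop
  have g2 : Continuous fun z : XX t × XX t => ip (F z.2) (F (z.1 + gam z.2)) := by
    unfold ip
    fun_prop
  have := (KK_compact t).eventually_forall_of_forall_eventually (x₀ := (0 : XX t))
    (P := fun d p => ip (F p) (F (d + gam p)) < 0) fun p hp =>
      g2.continuousAt.eventually_lt continuousAt_const (by simpa [f2] using ip_act (f3 p hp))
  obtain ⟨δ, d1, d2⟩ := Metric.eventually_nhds_iff.mp this
  refine ⟨fun p => (decide (0 ≤ (F p).1.re), decide (0 ≤ (F p).1.im), decide (0 ≤ (F p).2.re),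
    decide (0 ≤ (F p).2.im)), δ, d1, fun p hp q h e => ?_⟩
  have a := d2 (y := q - gam p) (by simpa using h) p hp
  simp only [Prod.mk.injEq, decide_eq_decide] at e
  have aux : ∀ x y : ℝ, (0 ≤ x ↔ 0 ≤ y) → 0 ≤ x * y := fun x y h => by
    by_cases q : 0 ≤ x
    · exact mul_nonneg q (h.mp q)
    · exact mul_nonneg_of_nonpos_of_nonpos (not_le.mp q).le (not_le.mp (mt h.mpr q)).le
  rw [sub_add_cancel, ip] at a
  linarith [aux _ _ e.1, aux _ _ e.2.1, aux _ _ e.2.2.1, aux _ _ e.2.2.2]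

theorem le_chi {V : Type} (A : V → V → Prop) (t : ℕ) (h1 : ∀ u, ¬ A u u)
    (h2 : ∀ c : V → Fin t, ∃ u v, A u v ∧ c u = c v) :
    (t : ℕ∞) ≤ (SimpleGraph.fromRel A).chromaticNumber := by
  by_contra h
  obtain ⟨c⟩ := SimpleGraph.chromaticNumber_le_iff_colorable.mp (not_le.mp h).le
  obtain ⟨u, v, a1, a2⟩ := h2 c
  have ne : u ≠ v := by
    rintro rfl
    exact h1 u a1
  exact c.valid ((SimpleGraph.fromRel_adj _ _ _).mpr ⟨ne, Or.inl a1⟩) a2

theorem clamp_odd (a b ε : ℝ) (h : |a + b| ≤ ε) :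
    |max (-1) (min 1 a) + max (-1) (min 1 b)| ≤ ε := by
  have := abs_nonneg (a + b)
  rw [abs_le] at h ⊢
  simp only [max_def, min_def]
  split_ifs <;> constructor <;> linarith

theorem bounded (n : ℕ) :
    ∃ (V W : Type) (_ : Finite V) (_ : Finite W) (G : SimpleGraph V) (H : SimpleGraph W),
      (n : ℕ∞) ≤ G.chromaticNumber ∧ (n : ℕ∞) ≤ H.chromaticNumber ∧
      (SimpleGraph.comap (Prod.fst : V × W → V) G ⊓
        SimpleGraph.comap (Prod.snd : V × W → W) H).Colorable 16 := by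
  obtain ⟨c, δ, d1, d2⟩ := exists_col (n + 1)
  obtain ⟨K, hK⟩ := exists_nat_gt (max 2 (2 * ((n : ℝ) + 1) / δ))
  have k2 : (2 : ℝ) < K := (le_max_left _ _).trans_lt hK
  have k0 : (0 : ℝ) < K := by linarith
  have k1 : 2 * ((n : ℝ) + 1) / K < δ := by
    have := (le_max_right _ _).trans_lt hK
    rw [div_lt_iff₀ d1] at this
    rw [div_lt_iff₀ k0]
    linarith
  obtain ⟨V, i1, A, D, a1, a2, a3, a4, a5⟩ := exists_template (n + 1) K (by omega)
  obtain ⟨W, i2, B, Y, b2, b3, b4, b5⟩ := exists_template3 (n + 1) K (by exact_mod_cast k2.le)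
  have cast : (n : ℕ∞) ≤ ((n + 1 : ℕ) : ℕ∞) := by exact_mod_cast Nat.le_succ n
  refine ⟨V, W, i1, i2, _, _, cast.trans (le_chi A _ a2 a3), cast.trans (le_chi B _ b2 b3), ?_⟩
  let P : V × W → XX (n + 1) := fun z =>
    (fun i => max (-1) (min 1 ((D i z.1 : ℝ) / K)), fun j h => (Y z.2 j h : ℝ) / (2 * K))
  have p1 : ∀ z, P z ∈ KK (n + 1) := by
    intro z
    obtain ⟨y1, y2, -, j, h, y4⟩ := b5 z.2
    refine ⟨fun i => abs_le.mpr ⟨le_max_left _ _, max_le (by norm_num) (min_le_left _ _)⟩, ?_,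
      fun j h => ⟨by positivity, ?_⟩, fun j h h' e => ?_, j, h, ?_⟩
    · obtain ⟨i, hi⟩ := a5 z.1
      refine ⟨i, ?_⟩
      have : (1 : ℝ) ≤ (D i z.1 : ℝ) / K := by
        rw [le_div_iff₀ k0, one_mul]
        exact_mod_cast hi
      simp only [P]
      rw [min_eq_left this, max_eq_right (by norm_num)]
    · simp only [P]
      rw [div_le_one (by positivity)]
      exact_mod_cast y1 j h
    · by_cases q : Y z.2 j h = 0
      · simp [P, q]
      · have : Y z.2 j h' = 0 := by
          by_contra q'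
          exact e (y2 j h h' q q')
        simp [P, this]
    · simp only [P, y4]
      push_cast
      exact div_self (by positivity)
  have p2 : ∀ z z', A z.1 z'.1 → B z.2 z'.2 → c (P z) ≠ c (P z') := by
    intro z z' e1 e2
    refine d2 _ (p1 z) _ (lt_of_le_of_lt ?_ k1)
    have n0 : 0 ≤ 2 * ((n : ℝ) + 1) / K := by positivity
    rw [norm_prod_le_iff, pi_norm_le_iff_of_nonneg n0, pi_norm_le_iff_of_nonneg n0]
    refine ⟨fun i => ?_, fun j => (pi_norm_le_iff_of_nonneg n0).mpr fun h => ?_⟩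
    · simp only [P, gam, Prod.fst_sub, Pi.sub_apply, Pi.neg_apply, sub_neg_eq_add, Real.norm_eq_abs]
      refine clamp_odd _ _ _ ?_
      rw [← add_div, abs_div, abs_of_pos k0, add_comm]
      refine div_le_div_of_nonneg_right ?_ k0.le
      exact_mod_cast a4 i _ _ e1
    · simp only [P, gam, Prod.snd_sub, Pi.sub_apply, Real.norm_eq_abs]
      have q1 : (Y z'.2 j h : ℝ) ≤ Y z.2 j (h - 1) + 2 := by exact_mod_cast (b4 _ _ e2 j h).1
      have q2 : (Y z.2 j (h - 1) : ℝ) ≤ Y z'.2 j h + 2 := by exact_mod_cast (b4 _ _ e2 j h).2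
      rw [← sub_div, abs_div, abs_of_pos (show (0 : ℝ) < 2 * K by positivity),
        div_le_div_iff₀ (by positivity) k0]
      have : |(Y z'.2 j h : ℝ) - Y z.2 j (h - 1)| ≤ 2 := abs_le.mpr ⟨by linarith, by linarith⟩
      nlinarith [mul_nonneg (Nat.cast_nonneg n : (0 : ℝ) ≤ n) k0.le]
  have := SimpleGraph.Coloring.colorable (G := SimpleGraph.comap Prod.fst (SimpleGraph.fromRel A) ⊓
    SimpleGraph.comap Prod.snd (SimpleGraph.fromRel B))
    (SimpleGraph.Coloring.mk (fun z => c (P z)) fun {z z'} h => by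
      have e1 : A z.1 z'.1 :=
        ((SimpleGraph.fromRel_adj _ _ _).mp h.1).2.elim id (a1 _ _)
      rcases ((SimpleGraph.fromRel_adj _ _ _).mp h.2).2 with e2 | e2
      · exact p2 z z' e1 e2
      · exact (p2 z' z (a1 _ _ e1) e2).symm)
  simpa using this

end Pool.Agent.P.MP_4cdbfb_co.Z3
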