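import Mathlib

namespace Pool.Agent.P.MP_4cdbfb_co

open Finset

variable {V Λ K : Type} [Fintype V] [DecidableEq V] [Fintype Λ] [DecidableEq Λ] [Fintype K]
  [DecidableEq K]

omit [Fintype Λ] [DecidableEq Λ] in
theorem card_update (P : V → Finset Λ) (x : V) (b : Λ) :
    (Fintype.piFinset (Function.update P x {b})).card * (P x).card =
      (Fintype.piFinset P).card := by
  rw [Fintype.card_piFinset, Fintype.card_piFinset, ← mul_prod_erase univ _ (mem_univ x),
    ← mul_prod_erase univ (fun i => (P i).card) (mem_univ x), Function.update_self,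
    card_singleton, one_mul, mul_comm]
  congr 1
  exact prod_congr rfl fun i hi => by rw [Function.update_of_ne (ne_of_mem_erase hi)]

omit [Fintype Λ] [DecidableEq Λ] in
theorem mem_update {P : V → Finset Λ} {f : V → Λ} (hf : f ∈ Fintype.piFinset P) {x : V} {b : Λ}
    (e : f x = b) : f ∈ Fintype.piFinset (Function.update P x {b}) := by
  rw [Fintype.mem_piFinset] at hf ⊢
  intro v
  by_cases q : v = x
  · subst q
    simp [e]
  · simpa [Function.update_of_ne q] using hf v

omit [Fintype Λ] in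
theorem two_fix (P : V → Finset Λ) (h : ℕ) (hP : ∀ v, (P v).card = h) {x x' : V} (hx : x' ≠ x)
    (b b' : Λ) :
    ((Fintype.piFinset P).filter fun f => f x = b ∧ f x' = b').card * (h * h) ≤
      (Fintype.piFinset P).card := by
  have e1 := card_update P x b
  have e2 := card_update (Function.update P x {b}) x' b'
  rw [Function.update_of_ne hx, hP] at e2
  rw [hP] at e1
  rw [← e1, ← e2, mul_assoc]
  refine Nat.mul_le_mul_right _ (card_le_card fun f hf => ?_)
  obtain ⟨f1, f2, f3⟩ := mem_filter.mp hf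
  exact mem_update (mem_update f1 f2) f3

/-- A family of small sets which cannot be covered by fewer than `s` letters. -/
def Thick (k s : ℕ) (A : Set (Finset Λ)) : Prop :=
  (∀ a ∈ A, a.card ≤ k) ∧ ∀ T : Finset Λ, T.card < s → ∃ a ∈ A, Disjoint a T

open Classical in
theorem cover_le (A : Set (Finset Λ)) (k h : ℕ) (hA : ∀ a ∈ A, a.card ≤ k) (s : ℕ) :
    ∀ (P : V → Finset Λ) (X : Finset V), (∀ v, v ∉ X → (P v).card = h) →
      (∀ T : Finset Λ, T.card < s → ∃ a ∈ A, Disjoint a (T ∪ X.biUnion P)) →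
      ((Fintype.piFinset P).filter fun g => ∀ a ∈ A, ∃ y, g y ∈ a).card * h ^ s ≤
        (Fintype.card V * k) ^ s * (Fintype.piFinset P).card := by
  induction s with
  | zero =>
    intro P X _ _
    rw [pow_zero, pow_zero, mul_one, one_mul]
    exact card_filter_le _ _
  | succ s ih =>
    intro P X hP hT
    obtain ⟨a, a1, a2⟩ := hT ∅ (by simp)
    rw [empty_union] at a2
    have hsub : ((Fintype.piFinset P).filter fun g => ∀ a ∈ A, ∃ y, g y ∈ a) ⊆
        (Xᶜ ×ˢ a).biUnion fun z => (Fintype.piFinset (Function.update P z.1 {z.2})).filter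
          fun g => ∀ a ∈ A, ∃ y, g y ∈ a := by
      intro g hg
      obtain ⟨g1, g2⟩ := mem_filter.mp hg
      obtain ⟨y, hy⟩ := g2 a a1
      refine mem_biUnion.mpr ⟨(y, g y), mem_product.mpr ⟨mem_compl.mpr fun q => ?_, hy⟩,
        mem_filter.mpr ⟨mem_update g1 rfl, g2⟩⟩
      exact disjoint_left.mp a2 hy (mem_biUnion.mpr ⟨y, q, Fintype.mem_piFinset.mp g1 y⟩)
    have c1 := (card_le_card hsub).trans card_biUnion_le
    calc _ ≤ (∑ z ∈ Xᶜ ×ˢ a, ((Fintype.piFinset (Function.update P z.1 {z.2})).filter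
          fun g => ∀ a ∈ A, ∃ y, g y ∈ a).card) * h ^ (s + 1) := Nat.mul_le_mul_right _ c1
      _ ≤ ∑ _z ∈ Xᶜ ×ˢ a, (Fintype.card V * k) ^ s * (Fintype.piFinset P).card := by
        rw [sum_mul]
        refine sum_le_sum fun z hz => ?_
        have z1 := mem_compl.mp (mem_product.mp hz).1
        have := ih (Function.update P z.1 {z.2}) (insert z.1 X) (fun v hv => by
          rw [mem_insert, not_or] at hv
          rw [Function.update_of_ne hv.1, hP v hv.2]) (fun T hT' => by
          obtain ⟨a', b1, b2⟩ := hT (insert z.2 T) ((card_insert_le _ _).trans_lt (by omega))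
          refine ⟨a', b1, b2.mono_right fun c hc => ?_⟩
          simp only [mem_union, mem_biUnion, mem_insert] at hc ⊢
          rcases hc with hc | ⟨v, rfl | hv, hc⟩
          · exact Or.inl (Or.inr hc)
          · exact Or.inl (Or.inl (by simpa using hc))
          · have : v ≠ z.1 := fun q => z1 (q ▸ hv)
            rw [Function.update_of_ne this] at hc
            exact Or.inr ⟨v, hv, hc⟩)
        rw [← card_update P z.1 z.2, hP _ z1, pow_succ, ← mul_assoc, ← mul_assoc]
        exact Nat.mul_le_mul_right _ this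
      _ ≤ _ := by
        rw [sum_const, smul_eq_mul, pow_succ', ← mul_assoc, card_product]
        exact Nat.mul_le_mul_right _ (Nat.mul_le_mul_right _
          (Nat.mul_le_mul (card_le_univ _) (hA a a1)))

/-- The colour `γ` is rare. -/
def Small (s : ℕ) (ψ : (V → Λ) → K) (γ : K) : Prop :=
  ∃ A : Set (Finset Λ), Thick (Fintype.card V) s A ∧ ∀ g, ψ g = γ → ∀ a ∈ A, ∃ y, g y ∈ a

def Link (ψ : (V → Λ) → K) (γ : K) (v : V) (b : Λ) : Set (Finset Λ) :=
  {a | ∃ f, ψ f = γ ∧ f v = b ∧ a = (univ.erase v).image f}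

/-- The colour `γ` is robust at the position `v` and the letter `b`. -/
def Rob (s : ℕ) (ψ : (V → Λ) → K) (γ : K) (v : V) (b : Λ) : Prop :=
  ¬ Small s ψ γ ∧ Thick (Fintype.card V) s (Link ψ γ v b)

omit [Fintype Λ] [Fintype K] [DecidableEq K] [DecidableEq V] in
theorem exists_cover {s : ℕ} {ψ : (V → Λ) → K}
    (hψ : ∀ f g, (∀ x y, f x ≠ g y) → ψ f ≠ ψ g) {γ : K} (h : ¬ Small s ψ γ) :
    ∃ T : Finset Λ, T.card < s ∧ ∀ f, ψ f = γ → ∃ x, f x ∈ T := by
  by_contra hc
  push Not at hc
  refine h ⟨{a | ∃ f, ψ f = γ ∧ a = univ.image f}, ⟨?_, fun T hT => ?_⟩, ?_⟩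
  · rintro a ⟨f, -, rfl⟩
    exact card_image_le
  · obtain ⟨f, f1, f2⟩ := hc T hT
    refine ⟨_, ⟨f, f1, rfl⟩, disjoint_left.mpr fun b hb => ?_⟩
    obtain ⟨x, -, rfl⟩ := mem_image.mp hb
    exact f2 x
  · rintro g hg a ⟨f, f1, rfl⟩
    have := mt (hψ f g) (not_not.mpr (f1.trans hg.symm))
    push Not at this
    obtain ⟨x, y, e⟩ := this
    exact ⟨y, mem_image.mpr ⟨x, mem_univ _, e⟩⟩

open Classical in
theorem exists_rob (s : ℕ) (ψ : (V → Λ) → K) (hψ : ∀ f g, (∀ x y, f x ≠ g y) → ψ f ≠ ψ g)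
    (h : ℕ) (hΛ : 2 * h ≤ Fintype.card Λ)
    (hK : Fintype.card K * ((Fintype.card V * Fintype.card V) ^ (s + 2) +
      (Fintype.card V * (s + 2)) ^ 2 * h ^ s) < h ^ (s + 2)) :
    ∃ v, h ≤ (s + 2) * (univ.filter fun γ => ∃ b, Rob (s + 2) ψ γ v b).card := by
  have main : ∃ v, h ≤ (univ.filter fun b => ∃ γ, Rob (s + 2) ψ γ v b).card := by
    by_contra hc
    push Not at hc
    have hP : ∀ v, ∃ P : Finset Λ, P.card = h ∧ ∀ b ∈ P, ∀ γ, ¬ Rob (s + 2) ψ γ v b := by
      intro v
      have h1 := hc v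
      have h2 := card_filter_add_card_filter_not (s := (univ : Finset Λ))
        (fun b => ∃ γ, Rob (s + 2) ψ γ v b)
      rw [card_univ] at h2
      obtain ⟨P, p1, p2⟩ := exists_subset_card_eq
        (s := univ.filter fun b => ¬ ∃ γ, Rob (s + 2) ψ γ v b) (n := h) (by omega)
      exact ⟨P, p2, fun b hb γ hr => (mem_filter.mp (p1 hb)).2 ⟨γ, hr⟩⟩
    choose P hP1 hP2 using hP
    set F := Fintype.piFinset P with hF
    have hcls : ∀ γ, (F.filter fun f => ψ f = γ).card * h ^ (s + 2) ≤
        ((Fintype.card V * Fintype.card V) ^ (s + 2) +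
          (Fintype.card V * (s + 2)) ^ 2 * h ^ s) * F.card := by
      intro γ
      rw [add_mul]
      by_cases hs : Small (s + 2) ψ γ
      · obtain ⟨A, a1, a2⟩ := hs
        refine le_trans ?_ (Nat.le_add_right _ _)
        refine le_trans (Nat.mul_le_mul_right _ (card_le_card fun f hf => ?_))
          (cover_le A _ h a1.1 (s + 2) P ∅ (fun v _ => hP1 v) (by simpa using a1.2))
        obtain ⟨f1, f2⟩ := mem_filter.mp hf
        exact mem_filter.mpr ⟨f1, a2 f f2⟩
      refine le_trans ?_ (Nat.le_add_left _ _)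
      obtain ⟨T, t1, t2⟩ := exists_cover hψ hs
      have hT : ∀ p : V × Λ, ∃ T' : Finset Λ, T'.card < s + 2 ∧ (p.2 ∈ P p.1 → ∀ f, ψ f = γ →
          f p.1 = p.2 → ∃ x, x ≠ p.1 ∧ f x ∈ T') := by
        intro p
        by_cases q : p.2 ∈ P p.1
        · have := hP2 _ _ q γ
          unfold Rob Thick at this
          push Not at this
          obtain ⟨T', u1, u2⟩ := this hs (by
            rintro a ⟨f, -, -, rfl⟩
            exact card_image_le.trans (card_le_univ _))
          refine ⟨T', u1, fun _ f f1 f2 => ?_⟩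
          obtain ⟨c, c1, c2⟩ := not_disjoint_iff.mp (u2 _ ⟨f, f1, f2, rfl⟩)
          obtain ⟨x, x1, rfl⟩ := mem_image.mp c1
          exact ⟨x, ne_of_mem_erase x1, c2⟩
        · exact ⟨∅, by simp, fun a => absurd a q⟩
      choose T' u1 u2 using hT
      have hsub : (F.filter fun f => ψ f = γ) ⊆ (univ ×ˢ T).biUnion fun p =>
          (univ ×ˢ T' p).biUnion fun p' =>
            F.filter fun f => p'.1 ≠ p.1 ∧ f p.1 = p.2 ∧ f p'.1 = p'.2 := by
        intro f hf
        obtain ⟨f1, f2⟩ := mem_filter.mp hf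
        obtain ⟨x, hx⟩ := t2 f f2
        obtain ⟨x', b1, b2⟩ := u2 (x, f x) (Fintype.mem_piFinset.mp f1 x) f f2 rfl
        exact mem_biUnion.mpr ⟨(x, f x), by simp [hx], mem_biUnion.mpr ⟨(x', f x'), by simp [b2],
          mem_filter.mpr ⟨f1, b1, rfl, rfl⟩⟩⟩
      have c1 := (card_le_card hsub).trans
        (card_biUnion_le.trans (sum_le_sum fun p _ => card_biUnion_le))
      have c2 : (F.filter fun f => ψ f = γ).card * (h * h) ≤
          (Fintype.card V * (s + 2)) ^ 2 * F.card := by
        refine (Nat.mul_le_mul_right _ c1).trans ?_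
        rw [sum_mul]
        calc _ ≤ ∑ _p ∈ (univ : Finset V) ×ˢ T, Fintype.card V * (s + 2) * F.card := by
              refine sum_le_sum fun p _ => ?_
              rw [sum_mul]
              calc _ ≤ ∑ _p' ∈ (univ : Finset V) ×ˢ T' p, F.card := by
                    refine sum_le_sum fun p' _ => ?_
                    by_cases q : p'.1 = p.1
                    · simp [q]
                    · simp only [ne_eq, q, not_false_eq_true, true_and]
                      exact two_fix P h hP1 q _ _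
                _ ≤ _ := by
                    rw [sum_const, smul_eq_mul, card_product, card_univ]
                    exact Nat.mul_le_mul_right _ (Nat.mul_le_mul_left _ (u1 p).le)
          _ ≤ _ := by
              rw [sum_const, smul_eq_mul, card_product, card_univ, ← mul_assoc, sq]
              exact Nat.mul_le_mul_right _ (Nat.mul_le_mul_right _
                (Nat.mul_le_mul_left _ t1.le))
      calc _ = (F.filter fun f => ψ f = γ).card * (h * h) * h ^ s := by ring
        _ ≤ (Fintype.card V * (s + 2)) ^ 2 * F.card * h ^ s := Nat.mul_le_mul_right _ c2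
        _ = _ := by ring
    have hpos : 0 < F.card := by
      rw [hF, Fintype.card_piFinset]
      refine prod_pos fun v _ => ?_
      rw [hP1]
      exact Nat.pos_of_ne_zero fun e => by simp [e] at hK
    have s1 : F.card * h ^ (s + 2) ≤ Fintype.card K * ((Fintype.card V * Fintype.card V) ^ (s + 2) +
        (Fintype.card V * (s + 2)) ^ 2 * h ^ s) * F.card := by
      calc F.card * h ^ (s + 2) = ∑ γ, (F.filter fun f => ψ f = γ).card * h ^ (s + 2) := by
            rw [← sum_mul, ← card_eq_sum_card_fiberwise (fun _ _ => mem_univ _)]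
        _ ≤ ∑ _γ : K, _ := sum_le_sum fun γ _ => hcls γ
        _ = _ := by rw [sum_const, card_univ, smul_eq_mul, ← mul_assoc]
    rw [mul_comm] at s1
    exact absurd (Nat.le_of_mul_le_mul_right s1 hpos) (not_le.mpr hK)
  obtain ⟨v, hv⟩ := main
  refine ⟨v, hv.trans ?_⟩
  have hsub : (univ.filter fun b => ∃ γ, Rob (s + 2) ψ γ v b) ⊆
      (univ.filter fun γ => ∃ b, Rob (s + 2) ψ γ v b).biUnion fun γ =>
        univ.filter fun b => Rob (s + 2) ψ γ v b := by
    intro b hb
    obtain ⟨γ, hγ⟩ := (mem_filter.mp hb).2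
    exact mem_biUnion.mpr ⟨γ, mem_filter.mpr ⟨mem_univ _, b, hγ⟩, mem_filter.mpr ⟨mem_univ _, hγ⟩⟩
  refine (card_le_card hsub).trans (card_biUnion_le.trans ?_)
  rw [mul_comm, ← smul_eq_mul, ← sum_const]
  refine sum_le_sum fun γ hγ => ?_
  obtain ⟨b₀, h₀⟩ := (mem_filter.mp hγ).2
  obtain ⟨T, t1, t2⟩ := exists_cover hψ h₀.1
  refine le_trans (card_le_card fun b hb => ?_) t1.le
  obtain ⟨a, ⟨f, f1, f2, rfl⟩, a2⟩ := (mem_filter.mp hb).2.2.2 T t1
  obtain ⟨x, hx⟩ := t2 f f1
  by_cases e : x = v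
  · rw [← f2, ← e]
    exact hx
  · exact absurd hx (disjoint_left.mp a2 (mem_image_of_mem f (mem_erase.mpr ⟨e, mem_univ _⟩)))

variable {U : Type} (A : U → U → Prop)

/-- A proper colouring of a part of the graph. -/
def Proper {S : Type} (φ : U → Option S) : Prop :=
  ∀ x y s, A x y → φ x = some s → φ y ≠ some s

def Ext {S : Type} (φ φ' : U → Option S) : Prop := ∀ x s, φ x = some s → φ' x = some s

theorem levels {Q : Type} (c : U → V × Q) (hA : ∀ x y, A x y → A y x)
    (h1 : ∀ x y, A x y → c x ≠ c y) (h3 : ∀ x y z w, A x y → A y z → A z w → c x ≠ c w) (r s : ℕ)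
    (ψ : (U → Option (Fin r × Bool × Q)) → (V → Λ) → K)
    (hψ : ∀ φ φ' f g, Proper A φ' → Ext φ φ' →
      (∀ x y, φ' y = none → A x y → f (c x).1 ≠ g (c y).1) → ψ φ f ≠ ψ φ' g)
    (h : ℕ) (hΛ : 2 * h ≤ Fintype.card Λ)
    (hK : Fintype.card K * ((Fintype.card V * Fintype.card V) ^ (s + 2) +
      (Fintype.card V * (s + 2)) ^ 2 * h ^ s) < h ^ (s + 2)) :
    r * h ≤ (s + 2) * Fintype.card K := by
  classical
  have key : ∀ i, i ≤ r → ∃ (φ : U → Option (Fin r × Bool × Q)) (Γ : Finset K), Proper A φ ∧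
      (∀ x t, φ x = some t → (t.1 : ℕ) < i) ∧ i * h ≤ (s + 2) * Γ.card ∧
      ∀ φ', Proper A φ' → Ext φ φ' → ∀ γ ∈ Γ, Small (s + 2) (ψ φ') γ := by
    intro i
    induction i with
    | zero => exact fun _ => ⟨fun _ => none, ∅, by simp [Proper], by simp, by simp, by simp⟩
    | succ i ih =>
      intro hi
      obtain ⟨φ, Γ, p1, p2, p3, p4⟩ := ih (by omega)
      obtain ⟨v, hv⟩ := exists_rob s (ψ φ)
        (fun f g q => hψ φ φ f g p1 (fun _ _ e => e) fun x y _ _ => q _ _) h hΛ hK
      set Δ := univ.filter fun γ => ∃ b, Rob (s + 2) (ψ φ) γ v b with hΔ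
      have hdisj : Disjoint Γ Δ := by
        refine disjoint_left.mpr fun γ hγ hγ' => ?_
        obtain ⟨b, hb⟩ := (mem_filter.mp hγ').2
        exact hb.1 (p4 φ p1 (fun _ _ e => e) γ hγ)
      let j : Fin r := ⟨i, hi⟩
      let φ₁ : U → Option (Fin r × Bool × Q) := fun x => match φ x with
        | some t => some t
        | none => if (c x).1 = v then some (j, false, (c x).2) else
            if q : ∃ w, A w x ∧ (c w).1 = v then some (j, true, (c q.choose).2) else none
      have e1 : Ext φ φ₁ := fun x t e => by simp only [φ₁, e]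
      have e2 : ∀ x t, φ₁ x = some t → φ x = some t ∨ ((c x).1 = v ∧ t = (j, false, (c x).2)) ∨
          ∃ w, A w x ∧ (c w).1 = v ∧ t = (j, true, (c w).2) := by
        intro x t e
        simp only [φ₁] at e
        split at e
        · rename_i t' q
          exact Or.inl (q.trans e)
        · split_ifs at e with q1 q2
          · exact Or.inr (Or.inl ⟨q1, (Option.some.inj e).symm⟩)
          · exact Or.inr (Or.inr ⟨_, q2.choose_spec.1, q2.choose_spec.2,
              (Option.some.inj e).symm⟩)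
      have e3 : ∀ x y, A x y → (c x).1 = v → φ₁ y ≠ none := by
        intro x y hy hx
        simp only [φ₁]
        split
        · simp
        · have : ∃ w, A w y ∧ (c w).1 = v := ⟨x, hy, hx⟩
          split_ifs <;> simp
      have e4 : ∀ x b, φ x ≠ some (j, b) := fun x b e => lt_irrefl _ (p2 x _ e)
      refine ⟨φ₁, Γ ∪ Δ, ?_, ?_, ?_, ?_⟩
      · intro x y t hxy a b
        rcases e2 x t a with a1 | ⟨a1, a2⟩ | ⟨w, a0, a1, a2⟩
        · rcases e2 y t b with b1 | ⟨-, b2⟩ | ⟨w', -, -, b2⟩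
          exacts [p1 x y t hxy a1 b1, e4 _ _ (b2 ▸ a1), e4 _ _ (b2 ▸ a1)]
        · rcases e2 y t b with b1 | ⟨b1, b2⟩ | ⟨w', -, -, b2⟩
          · exact e4 _ _ (a2 ▸ b1)
          · refine h1 x y hxy (Prod.ext (a1.trans b1.symm) ?_)
            simpa [a2] using b2
          · simp [a2] at b2
        · rcases e2 y t b with b1 | ⟨-, b2⟩ | ⟨w', b0, b1, b2⟩
          · exact e4 _ _ (a2 ▸ b1)
          · simp [a2] at b2
          · refine h3 w x y w' a0 hxy (hA _ _ b0) (Prod.ext (a1.trans b1.symm) ?_)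
            simpa [a2] using b2
      · intro x t e
        rcases e2 x t e with a | ⟨-, rfl⟩ | ⟨w, -, -, rfl⟩
        · exact (p2 x t a).trans (Nat.lt_succ_self i)
        · exact Nat.lt_succ_self i
        · exact Nat.lt_succ_self i
      · rw [card_union_of_disjoint hdisj, Nat.succ_mul, mul_add]
        omega
      · intro φ' q1 q2 γ hγ
        have q3 : Ext φ φ' := fun x t e => q2 x t (e1 x t e)
        rcases mem_union.mp hγ with hγ | hγ
        · exact p4 φ' q1 q3 γ hγ
        · obtain ⟨b, hb⟩ := (mem_filter.mp hγ).2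
          refine ⟨_, hb.2, ?_⟩
          rintro g hg a ⟨f, f1, -, rfl⟩
          have := mt (hψ φ φ' f g q1 q3) (not_not.mpr (f1.trans hg.symm))
          push Not at this
          obtain ⟨x, y, a1, a2, a3⟩ := this
          refine ⟨(c y).1, mem_image.mpr ⟨(c x).1, mem_erase.mpr ⟨fun e => ?_, mem_univ _⟩, a3⟩⟩
          obtain ⟨t, ht⟩ := Option.ne_none_iff_exists'.mp (e3 x y a2 e)
          rw [q2 y t ht] at a1
          simp at a1
  obtain ⟨-, Γ, -, -, p3, -⟩ := key r le_rfl
  exact p3.trans (Nat.mul_le_mul_left _ (card_le_univ Γ))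

end Pool.Agent.P.MP_4cdbfb_co
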