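import Mathlib
import Pool.Agent.P.MP_4cdbfb_co.Level
import Pool.Agent.P.MP_4cdbfb_co.Template

namespace Pool.Agent.P.MP_4cdbfb_co

open Finset

/-- The exponential graph. -/
def expo {U C : Type} (G : SimpleGraph U) (hG : ∀ f : U → C, ∃ u w, G.Adj u w ∧ f u = f w) :
    SimpleGraph (U → C) where
  Adj f g := ∀ u w, G.Adj u w → f u ≠ g w
  symm := ⟨fun _ _ h u w a => (h w u a.symm).symm⟩
  loopless := ⟨fun f h => by
    obtain ⟨u, w, a, e⟩ := hG f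
    exact h u w a e⟩

def emb {U V S Λ : Type} (p : U → V) (φ : U → Option S) (f : V → Λ) : U → S ⊕ Λ := fun u =>
  match φ u with
  | some s => Sum.inl s
  | none => Sum.inr (f (p u))

theorem emb_ne {U V S Λ : Type} (A : U → U → Prop) (p : U → V) {φ φ' : U → Option S}
    {f g : V → Λ} (h1 : Proper A φ') (h2 : Ext φ φ')
    (h3 : ∀ x y, φ' y = none → A x y → f (p x) ≠ g (p y)) (x y : U) (a : A x y) :
    emb p φ f x ≠ emb p φ' g y := by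
  unfold emb
  cases e1 : φ x <;> cases e2 : φ' y
  · simpa using h3 x y e2 a
  · simp
  · simp
  · simp only [ne_eq, Sum.inl.injEq]
    rintro rfl
    exact h1 x y _ a (h2 x _ e1) e2

theorem arith (ρ q t : ℕ) (hρ : 13 ≤ ρ) (hq : 8 * ρ ^ 4 ≤ q) (ht : t + 1 = ρ * ρ * q) :
    t * ((ρ * ρ * (ρ * ρ)) ^ (4 + 2) + (ρ * ρ * (4 + 2)) ^ 2 * (3 * ρ * q) ^ 4) <
      (3 * ρ * q) ^ (4 + 2) := by
  have h0 : 0 < ρ := by omega
  have q0 : 0 < q := lt_of_lt_of_le (by positivity) hq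
  have h1 : ρ ^ 4 ≤ q := by omega
  have h2 : (ρ ^ 4) ^ 5 ≤ q ^ 5 := Nat.pow_le_pow_left h1 5
  have a1 : ρ * ρ * q * (ρ * ρ * (ρ * ρ)) ^ (4 + 2) ≤ ρ ^ 6 * q ^ 6 := by
    calc _ = ρ ^ 6 * q * (ρ ^ 4) ^ 5 := by ring
      _ ≤ ρ ^ 6 * q * q ^ 5 := Nat.mul_le_mul_left _ h2
      _ = _ := by ring
  have a2 : 8 * (ρ * ρ * q * ((ρ * ρ * (4 + 2)) ^ 2 * (3 * ρ * q) ^ 4)) ≤
      2916 * (ρ ^ 6 * q ^ 6) := by
    calc _ = 2916 * ρ ^ 6 * q ^ 5 * (8 * ρ ^ 4) := by ring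
      _ ≤ 2916 * ρ ^ 6 * q ^ 5 * q := Nat.mul_le_mul_left _ hq
      _ = _ := by ring
  have a3 : (3 * ρ * q) ^ (4 + 2) = 729 * (ρ ^ 6 * q ^ 6) := by ring
  have a4 : 0 < ρ ^ 6 * q ^ 6 := by positivity
  have a5 : t * ((ρ * ρ * (ρ * ρ)) ^ (4 + 2) + (ρ * ρ * (4 + 2)) ^ 2 * (3 * ρ * q) ^ 4) ≤
      ρ * ρ * q * ((ρ * ρ * (ρ * ρ)) ^ (4 + 2) + (ρ * ρ * (4 + 2)) ^ 2 * (3 * ρ * q) ^ 4) :=
    Nat.mul_le_mul_right _ (by omega)
  rw [mul_add (ρ * ρ * q)] at a5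
  omega

theorem core (ρ q : ℕ) (hρ : 13 ≤ ρ) (hq : 8 * ρ ^ 4 ≤ q) :
    ∃ (V W : Type) (_ : Finite V) (_ : Finite W) (G : SimpleGraph V) (H : SimpleGraph W),
      ((ρ * ρ * q : ℕ) : ℕ∞) ≤ G.chromaticNumber ∧ ((ρ * ρ * q : ℕ) : ℕ∞) ≤ H.chromaticNumber ∧
      (SimpleGraph.comap (Prod.fst : V × W → V) G ⊓
        SimpleGraph.comap (Prod.snd : V × W → W) H).Colorable (12 * ρ * q) := by
  classical
  have h0 : 0 < ρ := by omega
  have q0 : 0 < q := lt_of_lt_of_le (by positivity) hq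
  have hN : 12 * ρ * q < ρ * ρ * q := by
    refine Nat.mul_lt_mul_of_pos_right ?_ q0
    nlinarith
  obtain ⟨t, ht⟩ : ∃ t, t + 1 = ρ * ρ * q := ⟨ρ * ρ * q - 1, by omega⟩
  have t1 : 1 ≤ t := by
    have : 0 < 12 * ρ * q := by positivity
    omega
  obtain ⟨U, _, A, D, a1, a2, a3, a4, a5⟩ := exists_template t (3 * t + 1) t1
  choose c₀ hc₀ using a5
  let e : Fin (t + 1) ≃ Fin (ρ * ρ) × Fin q := (finCongr ht).trans finProdFinEquiv.symm
  let c : U → Fin (ρ * ρ) × Fin q := fun u => e (c₀ u)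
  have c1 : ∀ x y, A x y → c x ≠ c y := by
    intro x y h q
    have q' : c₀ x = c₀ y := e.injective q
    have b1 := hc₀ x
    have b2 := hc₀ y
    have b3 := abs_le.mp (a4 (c₀ y) x y h)
    rw [q'] at b1
    push_cast at b1 b2
    omega
  have c3 : ∀ x y z w, A x y → A y z → A z w → c x ≠ c w := by
    intro x y z w h h' h'' q
    have q' : c₀ x = c₀ w := e.injective q
    have b1 := hc₀ x
    have b2 := hc₀ w
    have b3 := abs_le.mp (a4 (c₀ w) x y h)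
    have b4 := abs_le.mp (a4 (c₀ w) y z h')
    have b5 := abs_le.mp (a4 (c₀ w) z w h'')
    rw [q'] at b1
    push_cast at b1 b2
    omega
  let G : SimpleGraph U := ⟨A, ⟨a1⟩, ⟨a2⟩⟩
  let C := (Fin (3 * ρ) × Bool × Fin q) ⊕ Fin (2 * (3 * ρ * q))
  have hC : Fintype.card C = 12 * ρ * q := by
    simp only [C, Fintype.card_sum, Fintype.card_prod, Fintype.card_fin, Fintype.card_bool]
    ring
  have hG : ∀ f : U → C, ∃ u w, G.Adj u w ∧ f u = f w := by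
    intro f
    obtain ⟨i⟩ : Nonempty (C ↪ Fin t) :=
      Function.Embedding.nonempty_of_card_le (by rw [hC, Fintype.card_fin]; omega)
    obtain ⟨u, w, h, q⟩ := a3 fun u => i (f u)
    exact ⟨u, w, h, i.injective q⟩
  refine ⟨U, U → C, inferInstance, inferInstance, G, expo G hG, ?_, ?_, ?_⟩
  · refine SimpleGraph.le_chromaticNumber_iff_colorable.mpr fun m hm => ?_
    by_contra hlt
    obtain ⟨col⟩ := hm.mono (show m ≤ t by
      have : ¬ ρ * ρ * q ≤ m := fun q => hlt (by exact_mod_cast q)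
      omega)
    obtain ⟨u, w, h, q⟩ := a3 col
    exact col.valid (show G.Adj u w from h) q
  · refine SimpleGraph.le_chromaticNumber_iff_colorable.mpr fun m hm => ?_
    by_contra hlt
    obtain ⟨col⟩ := hm.mono (show m ≤ t by
      have : ¬ ρ * ρ * q ≤ m := fun q => hlt (by exact_mod_cast q)
      omega)
    have := levels (Λ := Fin (2 * (3 * ρ * q))) (K := Fin t) A c a1 c1 c3 (3 * ρ) 4
      (fun φ f => col (emb (fun u => (c u).1) φ f))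
      (fun φ φ' f g p1 p2 p3 => col.valid (emb_ne A _ p1 p2 p3)) (3 * ρ * q) (by simp)
      (by simpa only [Fintype.card_fin] using arith ρ q t hρ hq ht)
    rw [Fintype.card_fin] at this
    nlinarith
  · rw [← hC]
    refine SimpleGraph.Coloring.colorable (SimpleGraph.Coloring.mk (fun z => z.2 z.1) ?_)
    intro z z' h
    exact h.2 _ _ h.1

theorem main (n : ℕ) :
    ∃ (V W : Type) (_ : Finite V) (_ : Finite W) (G : SimpleGraph V) (H : SimpleGraph W),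
      (n : ℕ∞) ≤ G.chromaticNumber ∧ (n : ℕ∞) ≤ H.chromaticNumber ∧
      ∃ c : ℕ, c ^ 6 ≤ 20 ^ 6 * n ^ 5 ∧ (SimpleGraph.comap (Prod.fst : V × W → V) G ⊓
        SimpleGraph.comap (Prod.snd : V × W → W) H).Colorable c := by
  classical
  by_cases hn : n < 8 * 13 ^ 6
  · refine ⟨Fin n, Fin n, inferInstance, inferInstance, ⊤, ⊤, by simp, by simp, n, ?_, ?_⟩
    · calc n ^ 6 = n * n ^ 5 := by ring
        _ ≤ _ := Nat.mul_le_mul_right _ (by omega)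
    · exact ⟨SimpleGraph.Coloring.mk (fun z => z.1) fun h => h.1⟩
  have hex : ∃ ρ, n < 8 * (ρ + 1) ^ 6 := ⟨n, by
    have : n + 1 ≤ (n + 1) ^ 6 := Nat.le_self_pow (by norm_num) _
    omega⟩
  obtain ⟨ρ, r1, r2⟩ : ∃ ρ, n < 8 * (ρ + 1) ^ 6 ∧ ∀ σ < ρ, ¬ n < 8 * (σ + 1) ^ 6 :=
    ⟨Nat.find hex, Nat.find_spec hex, fun σ h => Nat.find_min hex h⟩
  have hρ : 13 ≤ ρ := by
    by_contra h
    have : (ρ + 1) ^ 6 ≤ 13 ^ 6 := Nat.pow_le_pow_left (by omega) 6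
    omega
  have r3 : 8 * ρ ^ 6 ≤ n := by
    have := r2 (ρ - 1) (by omega)
    rw [Nat.sub_add_cancel (by omega)] at this
    omega
  have p0 : 0 < ρ * ρ := by positivity
  set q := n / (ρ * ρ) + 1 with hq
  have q1 : n ≤ ρ * ρ * q := (Nat.lt_mul_div_succ n p0).le
  have q2 : ρ * ρ * q ≤ n + ρ * ρ := by
    rw [hq, mul_add, mul_one]
    exact Nat.add_le_add_right (Nat.mul_div_le _ _) _
  have q3 : 8 * ρ ^ 4 ≤ q := by
    refine Nat.le_of_mul_le_mul_left ?_ p0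
    calc ρ * ρ * (8 * ρ ^ 4) = 8 * ρ ^ 6 := by ring
      _ ≤ _ := r3.trans q1
  obtain ⟨V, W, i1, i2, G, H, g1, g2, g3⟩ := core ρ q hρ q3
  have cast : (n : ℕ∞) ≤ ((ρ * ρ * q : ℕ) : ℕ∞) := by exact_mod_cast q1
  refine ⟨V, W, i1, i2, G, H, cast.trans g1, cast.trans g2, _, ?_, g3⟩
  have b1 : 12 * (ρ * ρ) ≤ n := by
    have : 13 ^ 4 ≤ ρ ^ 4 := Nat.pow_le_pow_left hρ 4
    calc 12 * (ρ * ρ) ≤ 8 * ρ ^ 4 * (ρ * ρ) := Nat.mul_le_mul_right _ (by omega)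
      _ = 8 * ρ ^ 6 := by ring
      _ ≤ n := r3
  have b2 : 12 * ρ * q * ρ ≤ 13 * n := by
    calc 12 * ρ * q * ρ = 12 * (ρ * ρ * q) := by ring
      _ ≤ _ := by omega
  have b3 : n ≤ 13 * ρ ^ 6 := by
    have h1 : (13 * (ρ + 1)) ^ 6 ≤ (14 * ρ) ^ 6 := Nat.pow_le_pow_left (by omega) 6
    rw [mul_pow, mul_pow] at h1
    omega
  have n0 : 0 < n := by omega
  refine Nat.le_of_mul_le_mul_right ?_ n0
  calc (12 * ρ * q) ^ 6 * n ≤ (12 * ρ * q) ^ 6 * (13 * ρ ^ 6) := Nat.mul_le_mul_left _ b3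
    _ = 13 * (12 * ρ * q * ρ) ^ 6 := by ring
    _ ≤ 13 * (13 * n) ^ 6 := Nat.mul_le_mul_left _ (Nat.pow_le_pow_left b2 6)
    _ = 13 ^ 7 * n ^ 6 := by ring
    _ ≤ 20 ^ 6 * n ^ 6 := Nat.mul_le_mul_right _ (by norm_num)
    _ = _ := by ring

end Pool.Agent.P.MP_4cdbfb_co
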