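import Mathlib

set_option autoImplicit false

namespace Pool.Agent.P.MP_4cdbfb_co

section Cochains
variable {α : Type}

/-- coboundary of a mod 2 cochain on lists -/
def dl : (List α → ZMod 2) → List α → ZMod 2
  | _, [] => 0
  | c, x :: l => c l + dl (fun m => c (x :: m)) l

/-- adjoint of the prism operator -/
def pr (j : α → α) : (List α → ZMod 2) → List α → ZMod 2
  | _, [] => 0
  | c, x :: l => c (x :: j x :: l.map j) + pr j (fun m => c (x :: m)) l

lemma dl_add (l : List α) : ∀ c d : List α → ZMod 2,
    dl (fun m => c m + d m) l = dl c l + dl d l := by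
  induction l with
  | nil => intro c d; simp [dl]
  | cons x l ih =>
    intro c d
    simp only [dl]
    rw [ih (fun m => c (x :: m)) (fun m => d (x :: m))]
    ring

lemma pr_add (j : α → α) (l : List α) : ∀ c d : List α → ZMod 2,
    pr j (fun m => c m + d m) l = pr j c l + pr j d l := by
  induction l with
  | nil => intro c d; simp [pr]
  | cons x l ih =>
    intro c d
    simp only [pr]
    rw [ih (fun m => c (x :: m)) (fun m => d (x :: m))]
    ring

lemma dl_map (f : α → α) (l : List α) : ∀ c : List α → ZMod 2,
    dl (fun m => c (m.map f)) l = dl c (l.map f) := by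
  induction l with
  | nil => intro c; simp [dl]
  | cons x l ih =>
    intro c
    simp only [dl, List.map_cons]
    rw [ih (fun m => c (f x :: m))]

lemma two_eq (a : ZMod 2) : a + a = 0 := by
  revert a; decide

lemma pr_dl (j : α → α) (l : List α) : ∀ c : List α → ZMod 2,
    pr j (dl c) l + dl (pr j c) l = c l + c (l.map j) := by
  induction l with
  | nil => intro c; simp [dl, pr, two_eq]
  | cons x l ih =>
    intro c
    have h1 : pr j (fun m => dl c (x :: m)) l
        = pr j c l + pr j (dl (fun m => c (x :: m))) l := by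
      rw [← pr_add]; rfl
    have h2 : dl (fun m => pr j c (x :: m)) l
        = dl (fun m => c (x :: j x :: m)) (l.map j) + dl (pr j (fun m => c (x :: m))) l := by
      rw [← dl_map j l (fun m => c (x :: j x :: m)), ← dl_add]; rfl
    have h3 := ih (fun m => c (x :: m))
    simp only [pr, dl, List.map_cons] at h1 h2 h3 ⊢
    rw [h1, h2]
    have e1 := two_eq (pr j c l)
    have e2 := two_eq (dl (fun m => c (x :: j x :: m)) (l.map j))
    have e3 := two_eq (c (x :: l.map j))
    linear_combination h3 + e1 + e2 + e3

/-- the contraction: prism followed by cone -/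
def kk (j : α → α) (e : α) (c : List α → ZMod 2) (l : List α) : ZMod 2 :=
  pr j c l + c (e :: l.map j)

lemma kk_add (j : α → α) (e : α) (c d : List α → ZMod 2) (l : List α) :
    kk j e (fun m => c m + d m) l = kk j e c l + kk j e d l := by
  simp only [kk, pr_add]; ring

lemma kk_dl (j : α → α) (e : α) (c : List α → ZMod 2) (l : List α) :
    kk j e (dl c) l = c l + dl (kk j e c) l := by
  have h1 : dl (kk j e c) l = dl (pr j c) l + dl (fun m => c (e :: m)) (l.map j) := by
    rw [← dl_map j l (fun m => c (e :: m)), ← dl_add]; rfl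
  have h2 := pr_dl j l c
  simp only [kk, dl]
  rw [h1]
  have e1 := two_eq (dl (pr j c) l)
  have e2 := two_eq (c (l.map j))
  linear_combination h2 - e1 + e2

lemma pr_zero (j : α → α) (l : List α) : ∀ c : List α → ZMod 2,
    (∀ l₁ x l₂, l = l₁ ++ x :: l₂ → c (l₁ ++ x :: j x :: l₂.map j) = 0) → pr j c l = 0 := by
  induction l with
  | nil => intro c _; rfl
  | cons x l ih =>
    intro c h
    simp only [pr]
    rw [ih (fun m => c (x :: m)) (fun l₁ y l₂ hl => h (x :: l₁) y l₂ (by simp [hl]))]
    simpa using h [] x l rfl

/-- alternating indicator -/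
def alt (u : α → Bool) : Bool → List α → ZMod 2
  | _, [] => 1
  | s, x :: l => if u x = s then alt u (!s) l else 0

lemma dl_smul (l : List α) : ∀ (a : ZMod 2) (c : List α → ZMod 2),
    dl (fun m => a * c m) l = a * dl c l := by
  induction l with
  | nil => intro a c; simp [dl]
  | cons x l ih =>
    intro a c
    simp only [dl]
    rw [ih a (fun m => c (x :: m))]
    ring

lemma dl_alt (u : α → Bool) (l : List α) : ∀ s : Bool,
    dl (alt u s) l = alt u s l + alt u (!s) l := by
  induction l with
  | nil => intro s; simp [dl, alt, two_eq]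
  | cons x l ih =>
    intro s
    have h : (fun m => alt u s (x :: m)) =
        fun m => (if u x = s then 1 else 0) * alt u (!s) m := by
      funext m; simp only [alt]; split_ifs <;> simp
    simp only [dl]
    rw [h, dl_smul, ih]
    have e1 := two_eq (alt u s l)
    by_cases hx : u x = s
    · have hx' : ¬ u x = !s := by rw [hx]; cases s <;> simp
      simp only [alt, if_pos hx, if_neg hx', Bool.not_not]
      linear_combination e1
    · have hx' : u x = !s := by cases s <;> cases h' : u x <;> simp_all
      simp only [alt, if_neg hx, if_pos hx', Bool.not_not]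
      ring

end Cochains

abbrev SV := ℕ → SignType

/-- conformal order on sign vectors -/
def Cf (x y : SV) : Prop := ∀ j, x j = 0 ∨ x j = y j

def Sup (k : ℕ) (x : SV) : Prop := x ≠ 0 ∧ ∀ j, k ≤ j → x j = 0

def Good (k : ℕ) (l : List SV) : Prop :=
  l.Pairwise Cf ∧ (∀ x ∈ l, Sup k x) ∧ l.length = k

def jj (k : ℕ) (x : SV) : SV := Function.update x k 1

def ng (x : SV) : SV := fun j => - x j

lemma ng_ng (x : SV) : ng (ng x) = x := by funext j; simp [ng]

lemma Cf.trans {x y z : SV} (h1 : Cf x y) (h2 : Cf y z) : Cf x z := by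
  intro j
  rcases h1 j with h | h
  · exact Or.inl h
  · rcases h2 j with h' | h'
    · exact Or.inl (h.trans h')
    · exact Or.inr (h.trans h')

lemma Cf.neg {x y : SV} (h : Cf x y) : Cf (ng x) (ng y) := by
  intro j
  rcases h j with h | h <;> simp [ng, h]

lemma Sup.neg {k : ℕ} {x : SV} (h : Sup k x) : Sup k (ng x) := by
  refine ⟨fun h0 => h.1 ?_, fun j hj => by simp [ng, h.2 j hj]⟩
  rw [← ng_ng x, h0]; funext j; simp [ng]

lemma Sup.mono {k k' : ℕ} {x : SV} (h : Sup k x) (hk : k ≤ k') : Sup k' x :=
  ⟨h.1, fun j hj => h.2 j (hk.trans hj)⟩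

lemma sup_jj {k : ℕ} {x : SV} (h : ∀ j, k ≤ j → x j = 0) : Sup (k + 1) (jj k x) := by
  refine ⟨fun h0 => ?_, fun j hj => ?_⟩
  · have := congrFun h0 k
    simp [jj] at this
  · have : j ≠ k := by omega
    simp [jj, Function.update_of_ne this, h j (by omega)]

lemma cf_jj {k : ℕ} {x : SV} (h : x k = 0) : Cf x (jj k x) := by
  intro j
  by_cases hj : j = k
  · subst hj; exact Or.inl h
  · right; simp [jj, Function.update_of_ne hj]

lemma Cf.jj {k : ℕ} {x y : SV} (h : Cf x y) : Cf (jj k x) (jj k y) := by
  intro j
  by_cases hj : j = k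
  · subst hj; right; simp [Pool.Agent.P.MP_4cdbfb_co.jj]
  · simpa [Pool.Agent.P.MP_4cdbfb_co.jj, Function.update_of_ne hj] using h j

lemma Good.neg {k : ℕ} {l : List SV} (h : Good k l) : Good k (l.map ng) := by
  refine ⟨?_, ?_, by simpa using h.2.2⟩
  · rw [List.pairwise_map]; exact h.1.imp Cf.neg
  · intro x hx
    obtain ⟨y, hy, rfl⟩ := List.mem_map.1 hx
    exact (h.2.1 y hy).neg

lemma kk_zero (k : ℕ) (c : List SV → ZMod 2) (hc : ∀ l, Good (k + 1) l → c l = 0)
    (l : List SV) (hl : Good k l) : kk (jj k) (jj k 0) c l = 0 := by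
  obtain ⟨hp, hs, hn⟩ := hl
  have h1 : c (jj k 0 :: l.map (jj k)) = 0 := by
    apply hc
    refine ⟨?_, ?_, by simp [hn]⟩
    · rw [List.pairwise_cons]
      refine ⟨?_, ?_⟩
      · intro y hy
        obtain ⟨z, _, rfl⟩ := List.mem_map.1 hy
        exact Cf.jj (fun j => Or.inl rfl)
      · rw [List.pairwise_map]; exact hp.imp Cf.jj
    · intro x hx
      rcases List.mem_cons.1 hx with rfl | hx
      · exact sup_jj (fun _ _ => rfl)
      · obtain ⟨z, hz, rfl⟩ := List.mem_map.1 hx
        exact sup_jj (hs z hz).2
  have h2 : pr (jj k) c l = 0 := by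
    apply pr_zero
    rintro l₁ x l₂ rfl
    apply hc
    rw [List.pairwise_append, List.pairwise_cons] at hp
    obtain ⟨p1, ⟨p2, p3⟩, p4⟩ := hp
    have hx : Sup k x := hs x (by simp)
    have hxj : Cf x (jj k x) := cf_jj (hx.2 k le_rfl)
    have hx2 : ∀ y ∈ jj k x :: l₂.map (jj k), Cf x y := by
      intro y hy
      rcases List.mem_cons.1 hy with rfl | hy
      · exact hxj
      · obtain ⟨z, hz, rfl⟩ := List.mem_map.1 hy
        exact hxj.trans (p2 z hz).jj
    refine ⟨?_, ?_, ?_⟩
    · rw [List.pairwise_append, List.pairwise_cons, List.pairwise_cons]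
      refine ⟨p1, ⟨hx2, ?_, ?_⟩, ?_⟩
      · intro y hy
        obtain ⟨z, hz, rfl⟩ := List.mem_map.1 hy
        exact (p2 z hz).jj
      · rw [List.pairwise_map]; exact p3.imp Cf.jj
      · intro a ha b hb
        have hax : Cf a x := p4 a ha x (by simp)
        rcases List.mem_cons.1 hb with rfl | hb
        · exact hax
        · exact hax.trans (hx2 b hb)
    · intro y hy
      simp only [List.mem_append, List.mem_cons, List.mem_map] at hy
      rcases hy with hy | rfl | rfl | ⟨z, hz, rfl⟩
      · exact (hs y (by simp [hy])).mono (by omega)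
      · exact hx.mono (by omega)
      · exact sup_jj hx.2
      · exact sup_jj (hs z (by simp [hz])).2
    · simp at hn ⊢; omega
  simp [kk, h1, h2]

/-- evaluation on the fundamental class of the sphere of dimension `k - 1` -/
def fund : ℕ → (List SV → ZMod 2) → ZMod 2
  | 0, c => c []
  | k + 1, c => fund k (kk (jj k) (jj k 0) c) +
      fund k (kk (jj k) (jj k 0) (fun m => c (m.map ng)))

lemma fund_add (k : ℕ) : ∀ c d : List SV → ZMod 2,
    fund k (fun m => c m + d m) = fund k c + fund k d := by
  induction k with
  | zero => intro c d; rfl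
  | succ k ih =>
    intro c d
    simp only [fund]
    have h1 : kk (jj k) (jj k 0) (fun m => c m + d m) =
        fun l => kk (jj k) (jj k 0) c l + kk (jj k) (jj k 0) d l :=
      funext fun l => kk_add _ _ c d l
    have h2 : kk (jj k) (jj k 0) (fun m => c (m.map ng) + d (m.map ng)) =
        fun l => kk (jj k) (jj k 0) (fun m => c (m.map ng)) l +
          kk (jj k) (jj k 0) (fun m => d (m.map ng)) l :=
      funext fun l => kk_add _ _ (fun m => c (m.map ng)) (fun m => d (m.map ng)) l
    rw [h1, h2, ih, ih]; ring

lemma fund_neg (k : ℕ) (c : List SV → ZMod 2) :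
    fund k (fun m => c (m.map ng)) = fund k c := by
  cases k with
  | zero => rfl
  | succ k =>
    simp only [fund]
    have : (fun m : List SV => c ((m.map ng).map ng)) = c := by
      funext m
      rw [List.map_map]
      have : ng ∘ ng = id := funext ng_ng
      rw [this, List.map_id]
    rw [this, add_comm]

lemma fund_dl (k : ℕ) : ∀ c : List SV → ZMod 2, fund k (dl c) = 0 := by
  induction k with
  | zero => intro c; rfl
  | succ k ih =>
    intro c
    simp only [fund]
    have h0 : (fun m : List SV => dl c (m.map ng)) = dl (fun m => c (m.map ng)) :=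
      funext fun m => (dl_map ng m c).symm
    have h1 : ∀ c : List SV → ZMod 2, fund k (kk (jj k) (jj k 0) (dl c)) = fund k c := by
      intro c
      have : kk (jj k) (jj k 0) (dl c) = fun l => c l + dl (kk (jj k) (jj k 0) c) l :=
        funext fun l => kk_dl _ _ c l
      rw [this, fund_add, ih, add_zero]
    rw [h0, h1, h1, fund_neg, two_eq]

lemma fund_zero (k : ℕ) : ∀ c : List SV → ZMod 2, (∀ l, Good k l → c l = 0) → fund k c = 0 := by
  induction k with
  | zero => intro c h; exact h [] ⟨List.Pairwise.nil, by simp, rfl⟩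
  | succ k ih =>
    intro c h
    simp only [fund]
    rw [ih _ (kk_zero k c h), ih _ (kk_zero k _ (fun l hl => h _ hl.neg)), add_zero]

lemma alt_neg (u : SV → Bool) (N : ℕ) (hu : ∀ x, Sup N x → u (ng x) = !u x) (l : List SV) :
    ∀ s, (∀ x ∈ l, Sup N x) → alt u s (l.map ng) = alt u (!s) l := by
  induction l with
  | nil => intro s _; rfl
  | cons x l ih =>
    intro s h
    simp only [List.map_cons, alt]
    rw [hu x (h x (by simp)), ih (!s) (fun y hy => h y (by simp [hy]))]
    cases s <;> cases u x <;> simp

lemma fund_alt (u : SV → Bool) (N : ℕ) (hu : ∀ x, Sup N x → u (ng x) = !u x) (s : Bool)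
    (k : ℕ) (hk : k ≤ N) : fund k (alt u s) = 1 := by
  induction k with
  | zero => rfl
  | succ k ih =>
    have h0 : fund k (kk (jj k) (jj k 0)
        (fun m => (alt u s m + alt u s (m.map ng)) + dl (alt u s) m)) = 0 := by
      apply fund_zero
      apply kk_zero
      intro l hl
      rw [alt_neg u N hu l s (fun x hx => (hl.2.1 x hx).mono hk), dl_alt, two_eq]
    have h1 : kk (jj k) (jj k 0)
        (fun m => (alt u s m + alt u s (m.map ng)) + dl (alt u s) m) =
        fun l => (kk (jj k) (jj k 0) (alt u s) l +
          kk (jj k) (jj k 0) (fun m => alt u s (m.map ng)) l) +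
          (alt u s l + dl (kk (jj k) (jj k 0) (alt u s)) l) := by
      funext l
      rw [kk_add (jj k) (jj k 0) (fun m => alt u s m + alt u s (m.map ng)) (dl (alt u s)),
        kk_add (jj k) (jj k 0) (alt u s) (fun m => alt u s (m.map ng)), kk_dl]
    rw [h1, fund_add, fund_add, fund_add, fund_dl, ih (by omega)] at h0
    simp only [fund]
    have e := two_eq (1 : ZMod 2)
    linear_combination h0 - e

/-- Tucker lemma for order preserving labellings. -/
theorem tucker (N M : ℕ) (μ : SV → ℕ)
    (hmono : ∀ x y, Sup N x → Sup N y → Cf x y → μ x ≤ μ y)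
    (hne : ∀ x, Sup N x → μ x ≠ μ (ng x)) (hM : ∀ x, Sup N x → μ x ≤ M) : N ≤ M := by
  classical
  let u : SV → Bool := fun x => decide (μ (ng x) < μ x)
  have hu : ∀ x, Sup N x → u (ng x) = !u x := by
    intro x hx
    have := hne x hx
    simp only [u, ng_ng]
    by_cases h : μ (ng x) < μ x
    · have h' : ¬ μ x < μ (ng x) := by omega
      simp [h, h']
    · have h' : μ x < μ (ng x) := by omega
      simp [h, h']
  have h1 := fund_alt u N hu true N le_rfl
  have h2 : ∃ l, Good N l ∧ alt u true l ≠ 0 := by
    by_contra hcon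
    push Not at hcon
    rw [fund_zero N _ hcon] at h1
    exact absurd h1 (by decide)
  obtain ⟨l, ⟨hp, hs, hn⟩, hl⟩ := h2
  let side : Bool → SV → ℕ := fun s x => if s then μ x else μ (ng x)
  have key : ∀ (l : List SV) (s : Bool) (b : ℕ), l.Pairwise Cf → (∀ x ∈ l, Sup N x) →
      alt u s l ≠ 0 → b ≤ M → (∀ x ∈ l, b ≤ side (!s) x) → b + l.length ≤ M := by
    intro l
    induction l with
    | nil => intro s b _ _ _ hb _; simpa using hb
    | cons x l ih =>
      intro s b hp hs ha hb hside
      rw [List.pairwise_cons] at hp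
      have hx : Sup N x := hs x (by simp)
      simp only [alt] at ha
      by_cases hux : u x = s
      · rw [if_pos hux] at ha
        have hlt : side (!s) x < side s x := by
          have := hne x hx
          cases s
          · simp only [u, decide_eq_false_iff_not] at hux
            simp only [side]; simp; omega
          · simp only [u, decide_eq_true_eq] at hux
            simp only [side]; simpa using hux
        have hle : side s x ≤ M := by
          cases s
          · simpa [side] using hM _ hx.neg
          · simpa [side] using hM _ hx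
        have := ih (!s) (side s x) hp.2 (fun y hy => hs y (by simp [hy])) ha hle (by
          intro y hy
          have hy' : Sup N y := hs y (by simp [hy])
          rw [Bool.not_not]
          cases s
          · simpa [side] using hmono _ _ hx.neg hy'.neg (hp.1 y hy).neg
          · simpa [side] using hmono _ _ hx hy' (hp.1 y hy))
        have h3 := hside x (by simp)
        simp only [List.length_cons]
        omega
      · rw [if_neg hux] at ha; exact absurd rfl ha
  have := key l true 0 hp hs hl (Nat.zero_le _) (fun _ _ => Nat.zero_le _)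
  omega

end Pool.Agent.P.MP_4cdbfb_co
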